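import Pool.Agent.Work.MP_a98e4e_ag.Fu.Term
import Pool.Agent.Work.MP_a98e4e_ag.Fu.L.Grad
import Pool.Agent.Work.MP_a98e4e_ag.Fu.E.KChk3
import Pool.Agent.Work.MP_a98e4e_ag.Fu.DLink

section

/-!
# LICCI, codimension 5 and 6: the `6`-form of a state and the moves (helper45)

`P = A ^ 8`, `f : P → A` is the pairing with `p3 Y`; for an `8`-form `ω` on `P`, `nu6 ω Y` is the
`6`-form `ω (w2 Y ∧ ⋯)` and `M5 ω u` is `u_0 ∧ ⋯ ∧ u_4` in degree `1`.
-/

set_option linter.unusedSectionVars false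

noncomputable section

namespace Pool.Agent.Licci

open scoped BigOperators

section gen

variable {R M N : Type*} [CommRing R] [AddCommGroup M] [Module R M] [AddCommGroup N]
    [Module R N] {n : ℕ}

/-- fix the first argument -/
def cur1 (ω : M [⋀^Fin (n + 1)]→ₗ[R] N) (x : M) : M [⋀^Fin n]→ₗ[R] N := ω.curryLeft x

theorem cur1_apply (ω : M [⋀^Fin (n + 1)]→ₗ[R] N) (x : M) (a : Fin n → M) :
    cur1 ω x a = ω (Fin.cons x a) := rfl

theorem cur1_add (ω : M [⋀^Fin (n + 1)]→ₗ[R] N) (x y : M) : cur1 ω (x + y) = cur1 ω x + cur1 ω y :=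
  map_add _ _ _

theorem cur1_smul (ω : M [⋀^Fin (n + 1)]→ₗ[R] N) (c : R) (x : M) :
    cur1 ω (c • x) = c • cur1 ω x := map_smul _ _ _

theorem cur1_sum {ι : Type*} (s : Finset ι) (ω : M [⋀^Fin (n + 1)]→ₗ[R] N) (x : ι → M)
    (a : Fin n → M) : cur1 ω (∑ i ∈ s, x i) a = ∑ i ∈ s, cur1 ω (x i) a := by
  induction s using Finset.cons_induction with
  | empty =>
    rw [Finset.sum_empty, Finset.sum_empty, ← zero_smul R (0 : M), cur1_smul, zero_smul]
    rfl
  | cons i s hi ih => rw [Finset.sum_cons, Finset.sum_cons, cur1_add, ← ih]; rfl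

theorem alt_sum_apply {ι κ : Type*} (s : Finset ι) (f : ι → M [⋀^κ]→ₗ[R] N) (a : κ → M) :
    (∑ i ∈ s, f i) a = ∑ i ∈ s, f i a := by
  induction s using Finset.cons_induction with
  | empty => rfl
  | cons i s hi ih => rw [Finset.sum_cons, Finset.sum_cons, ← ih]; rfl

/-- the last argument can be moved to the front -/
theorem alt_snoc (ω : M [⋀^Fin (n + 1)]→ₗ[R] N) (u : Fin n → M) (v : M) :
    ω (Fin.snoc u v) = (-1 : ℤ) ^ n • ω (Fin.cons v u) := by
  have h1 : (Fin.snoc u v : Fin (n + 1) → M) =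
      (Fin.cons v u : Fin (n + 1) → M) ∘ (finRotate (n + 1)) := Fin.snoc_eq_cons_rotate u v
  rw [h1, AlternatingMap.map_perm, sign_finRotate]
  rcases neg_one_pow_eq_or ℤ n with h | h
  · have h2 : ((-1 : ℤˣ) ^ n) = 1 := by
      ext
      push_cast
      exact h
    rw [Nat.add_sub_cancel, h, h2, one_smul, one_smul]
  · have h2 : ((-1 : ℤˣ) ^ n) = -1 := by
      ext
      push_cast
      exact h
    rw [Nat.add_sub_cancel, h, h2, Units.smul_def]
    push_cast
    rfl

/-- the first two arguments -/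
theorem alt_swap01 (ω : M [⋀^Fin (n + 2)]→ₗ[R] N) (x y : M) (u : Fin n → M) :
    ω (Fin.cons x (Fin.cons y u)) = - ω (Fin.cons y (Fin.cons x u)) := by
  have h := ω.map_swap (Fin.cons y (Fin.cons x u)) (i := 0) (j := 1) (by
    intro h
    have := congrArg Fin.val h
    simp at this)
  rw [← h]
  congr 1
  funext r
  refine Fin.cases ?_ (fun r => ?_) r
  · rw [Function.comp_apply, Equiv.swap_apply_left]
    rfl
  · refine Fin.cases ?_ (fun r => ?_) r
    · have e : (Fin.succ 0 : Fin (n + 2)) = 1 := rfl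
      rw [Function.comp_apply, e, Equiv.swap_apply_right]
      rfl
    · rw [Function.comp_apply, Equiv.swap_apply_of_ne_of_ne (Fin.succ_ne_zero _)]
      · rfl
      · intro hh
        have := congrArg Fin.val hh
        simp at this

end gen

variable {A : Type*} [CommRing A]

/-- pairing with the component of degree `3` -/
def fv (Y : E8 A) : Vec A →ₗ[A] A where
  toFun v := ∑ m, p3 Y m * v m
  map_add' v w := by simp only [Pi.add_apply, mul_add, Finset.sum_add_distrib]
  map_smul' c v := by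
    simp only [Pi.smul_apply, smul_eq_mul, RingHom.id_apply, Finset.mul_sum]
    refine Finset.sum_congr rfl fun m _ => ?_
    ring

theorem fv_apply (Y : E8 A) (v : Vec A) : fv Y v = ∑ m, p3 Y m * v m := rfl

theorem fv_single (Y : E8 A) (i : Fin 8) : fv Y (Pi.single i 1) = p3 Y i := by
  rw [fv_apply, Finset.sum_eq_single i]
  · simp
  · intro b _ hb
    simp [hb]
  · intro h
    exact absurd (Finset.mem_univ _) h

theorem vec_sum (v : Vec A) : v = ∑ m, v m • (Pi.single m 1 : Vec A) := by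
  funext j
  simp [Finset.sum_apply, Pi.single_apply]

/-- `ω (e_i, e_j, ⋯)` -/
def vol2 (ω : Vec A [⋀^Fin 8]→ₗ[A] A) (i j : Fin 8) : Vec A [⋀^Fin 6]→ₗ[A] A :=
  cur1 (n := 6) (cur1 (n := 7) ω (Pi.single i 1)) (Pi.single j 1)

/-- `ω (e_i, e_j, e_k, ⋯)` -/
def vol3 (ω : Vec A [⋀^Fin 8]→ₗ[A] A) (i j k : Fin 8) : Vec A [⋀^Fin 5]→ₗ[A] A :=
  cur1 (n := 5) (vol2 ω i j) (Pi.single k 1)

theorem vol2_apply (ω : Vec A [⋀^Fin 8]→ₗ[A] A) (i j : Fin 8) (a : Fin 6 → Vec A) :
    vol2 ω i j a = ω (Fin.cons (Pi.single i 1) (Fin.cons (Pi.single j 1) a)) := rfl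

theorem vol3_apply (ω : Vec A [⋀^Fin 8]→ₗ[A] A) (i j k : Fin 8) (a : Fin 5 → Vec A) :
    vol3 ω i j k a = vol2 ω i j (Fin.cons (Pi.single k 1) a) := rfl

/-- Cramer's rule for an `n`-form -/
def Cram {κ : Type*} [Fintype κ] [DecidableEq κ] (ω : (κ → A) [⋀^κ]→ₗ[A] A) : Prop :=
  ∀ (b : κ → κ → A) (v : κ → A) (m : κ),
    ∑ j, b j m * ω (Function.update b j v) = ω b * v m

/-- Cramer's rule -/
theorem cram_det {κ : Type*} [Fintype κ] [DecidableEq κ] :
    Cram (Matrix.detRowAlternating : (κ → A) [⋀^κ]→ₗ[A] A) := by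
  intro b v m
  have h := congrFun (Matrix.mulVec_cramer (Matrix.transpose (Matrix.of b)) v) m
  rw [Matrix.det_transpose, Pi.smul_apply, smul_eq_mul] at h
  have h2 : (Matrix.detRowAlternating : (κ → A) [⋀^κ]→ₗ[A] A) b = (Matrix.of b).det := rfl
  rw [h2, ← h, Matrix.mulVec, dotProduct]
  refine Finset.sum_congr rfl fun j _ => ?_
  rw [Matrix.cramer_transpose_apply]
  rfl

theorem Cram.lin {ω : Vec A [⋀^Fin 8]→ₗ[A] A} (hω : Cram ω) (f : Vec A →ₗ[A] A) (b : Fin 8 → Vec A)
    (v : Vec A) : ∑ j, f (b j) * ω (Function.update b j v) = f v * ω b := by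
  have hf : ∀ x : Vec A, f x = ∑ m, x m * f (Pi.single m 1) := by
    intro x
    conv_lhs => rw [vec_sum x]
    rw [map_sum]
    refine Finset.sum_congr rfl fun m _ => ?_
    rw [map_smul, smul_eq_mul]
  rw [hf v, Finset.sum_mul]
  have e : ∀ j, f (b j) * ω (Function.update b j v) =
      ∑ m, b j m * ω (Function.update b j v) * f (Pi.single m 1) := by
    intro j
    rw [hf (b j), Finset.sum_mul]
    refine Finset.sum_congr rfl fun m _ => ?_
    ring
  rw [Finset.sum_congr rfl fun j _ => e j, Finset.sum_comm]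
  refine Finset.sum_congr rfl fun m _ => ?_
  rw [← Finset.sum_mul, hω]
  ring

theorem Cram.vol2 {ω : Vec A [⋀^Fin 8]→ₗ[A] A} (hω : Cram ω) (f : Vec A →ₗ[A] A) (p q : Fin 8)
    (a : Fin 6 → Vec A) (v : Vec A) :
    ∑ l, f (a l) * vol2 ω p q (Function.update a l v) = f v * vol2 ω p q a -
      f (Pi.single p 1) * ω (Fin.cons v (Fin.cons (Pi.single q 1) a)) -
      f (Pi.single q 1) * ω (Fin.cons (Pi.single p 1) (Fin.cons v a)) := by
  have h := hω.lin f (Fin.cons (Pi.single p 1) (Fin.cons (Pi.single q 1) a)) v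
  rw [Fin.sum_univ_succ, Fin.sum_univ_succ] at h
  simp only [Fin.cons_zero, Fin.cons_succ, Fin.update_cons_zero, ← Fin.cons_update] at h
  rw [vol2_apply, ← h]
  simp only [vol2_apply]
  ring

section

variable [Algebra ℚ A]

/-- the `6`-form `ω (w2 Y ∧ ⋯)` -/
def nu6 (ω : Vec A [⋀^Fin 8]→ₗ[A] A) (Y : E8 A) : Vec A [⋀^Fin 6]→ₗ[A] A :=
  ∑ i, ∑ j, (algebraMap ℚ A (1 / 2) * w2 Y i j) • vol2 ω i j

theorem nu6_apply (ω : Vec A [⋀^Fin 8]→ₗ[A] A) (Y : E8 A) (a : Fin 6 → Vec A) :
    nu6 ω Y a = algebraMap ℚ A (1 / 2) * ∑ i, ∑ j, w2 Y i j * vol2 ω i j a := by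
  unfold nu6
  rw [alt_sum_apply, Finset.mul_sum]
  refine Finset.sum_congr rfl fun i _ => ?_
  rw [alt_sum_apply, Finset.mul_sum]
  refine Finset.sum_congr rfl fun j _ => ?_
  rw [AlternatingMap.smul_apply, smul_eq_mul, mul_assoc]

/-- `f ∧ ν = 0` -/
theorem nu6_cyc {ω : Vec A [⋀^Fin 8]→ₗ[A] A} (hω : Cram ω) (Y : E8 A)
    (h : ∀ i, ∑ s, w2 Y s i * p3 Y s = 0) (a : Fin 6 → Vec A) (v : Vec A) :
    ∑ j, fv Y (a j) * nu6 ω Y (Function.update a j v) = fv Y v * nu6 ω Y a := by
  have h' : ∀ i, ∑ s, w2 Y i s * p3 Y s = 0 := by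
    intro i
    rw [← neg_eq_zero, ← Finset.sum_neg_distrib, ← h i]
    refine Finset.sum_congr rfl fun s _ => ?_
    rw [w2_swap Y s i]
    ring
  have e1 : ∑ j, fv Y (a j) * nu6 ω Y (Function.update a j v) = algebraMap ℚ A (1 / 2) *
      ∑ p, ∑ q, w2 Y p q * ∑ l, fv Y (a l) * vol2 ω p q (Function.update a l v) := by
    simp only [nu6_apply, Finset.mul_sum]
    rw [Finset.sum_comm]
    refine Finset.sum_congr rfl fun p _ => ?_
    rw [Finset.sum_comm]
    refine Finset.sum_congr rfl fun q _ => ?_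
    refine Finset.sum_congr rfl fun l _ => ?_
    ring
  rw [e1, nu6_apply, mul_left_comm]
  congr 1
  simp only [hω.vol2, fv_single, mul_sub, Finset.sum_sub_distrib, Finset.mul_sum]
  have e2 : ∑ p, ∑ q, w2 Y p q * (p3 Y p * ω (Fin.cons v (Fin.cons (Pi.single q 1) a))) = 0 := by
    rw [Finset.sum_comm]
    refine Finset.sum_eq_zero fun q _ => ?_
    rw [← zero_mul (ω (Fin.cons v (Fin.cons (Pi.single q 1) a))), ← h q, Finset.sum_mul]
    refine Finset.sum_congr rfl fun p _ => ?_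
    ring
  have e3 : ∑ p, ∑ q, w2 Y p q * (p3 Y q * ω (Fin.cons (Pi.single p 1) (Fin.cons v a))) = 0 := by
    refine Finset.sum_eq_zero fun p _ => ?_
    rw [← zero_mul (ω (Fin.cons (Pi.single p 1) (Fin.cons v a))), ← h' p, Finset.sum_mul]
    refine Finset.sum_congr rfl fun q _ => ?_
    ring
  rw [e2, e3, sub_zero, sub_zero]
  refine Finset.sum_congr rfl fun p _ => Finset.sum_congr rfl fun q _ => ?_
  ring

/-- `u_0 ∧ ⋯ ∧ u_4` in degree `1` -/
def M5 (ω : Vec A [⋀^Fin 8]→ₗ[A] A) (u : Fin 5 → Vec A) : E8 A :=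
  ∑ i, ∑ j, ∑ k, (-(algebraMap ℚ A (1 / 6)) * vol3 ω i j k u) • T i j k

theorem vol2_swap (ω : Vec A [⋀^Fin 8]→ₗ[A] A) (i j : Fin 8) (a : Fin 6 → Vec A) :
    vol2 ω i j a = - vol2 ω j i a := by
  rw [vol2_apply, vol2_apply]
  exact alt_swap01 (n := 6) ω _ _ a

theorem vol3_swap (ω : Vec A [⋀^Fin 8]→ₗ[A] A) (i j k : Fin 8) (u : Fin 5 → Vec A) :
    vol3 ω i j k u = - vol3 ω j i k u := by
  rw [vol3_apply, vol3_apply, vol2_swap]

theorem vol3_swap' (ω : Vec A [⋀^Fin 8]→ₗ[A] A) (i j k : Fin 8) (u : Fin 5 → Vec A) :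
    vol3 ω i j k u = - vol3 ω i k j u := by
  have h := alt_swap01 (n := 5) (cur1 (n := 7) ω (Pi.single i 1)) (Pi.single j 1) (Pi.single k 1) u
  exact h

theorem vol3_lin (ω : Vec A [⋀^Fin 8]→ₗ[A] A) (i j : Fin 8) (u : Fin 5 → Vec A) (v : Vec A) :
    ∑ k, vol3 ω i j k u * v k = vol2 ω i j (Fin.cons v u) := by
  have h : ∀ w : Vec A, vol2 ω i j (Fin.cons w u) = cur1 (n := 5) (vol2 ω i j) w u := fun w => rfl
  rw [h]
  conv_rhs => rw [vec_sum v]
  rw [cur1_sum]
  refine Finset.sum_congr rfl fun k _ => ?_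
  rw [cur1_smul, AlternatingMap.smul_apply, smul_eq_mul, mul_comm]
  rfl

theorem six_half : (3 : A) * algebraMap ℚ A (1 / 6) = algebraMap ℚ A (1 / 2) := by
  rw [← map_ofNat (algebraMap ℚ A) 3, ← map_mul]
  norm_num

/-- the first order term of a move -/
theorem fv_M5 (ω : Vec A [⋀^Fin 8]→ₗ[A] A) (u : Fin 5 → Vec A) (Y : E8 A) (v : Vec A) :
    fv (br (M5 ω u) Y) v = nu6 ω Y (Fin.snoc u v) := by
  have e0 : fv (br (M5 ω u) Y) v = ∑ i, ∑ j, ∑ k, (-(algebraMap ℚ A (1 / 6)) * vol3 ω i j k u) *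
      (w2 Y j k * v i - w2 Y i k * v j + w2 Y i j * v k) := by
    rw [fv_apply]
    have e : ∀ m, p3 (br (M5 ω u) Y) m * v m = ∑ i, ∑ j, ∑ k,
        (-(algebraMap ℚ A (1 / 6)) * vol3 ω i j k u) * (br (T i j k) Y (ix m) * v m) := by
      intro m
      change br (M5 ω u) Y (ix m) * v m = _
      unfold M5
      rw [br_sum_left, Finset.sum_apply, Finset.sum_mul]
      refine Finset.sum_congr rfl fun i _ => ?_
      rw [br_sum_left, Finset.sum_apply, Finset.sum_mul]
      refine Finset.sum_congr rfl fun j _ => ?_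
      rw [br_sum_left, Finset.sum_apply, Finset.sum_mul]
      refine Finset.sum_congr rfl fun k _ => ?_
      rw [br_smul_left, Pi.smul_apply, smul_eq_mul, mul_assoc]
    rw [Finset.sum_congr rfl fun m _ => e m, Finset.sum_comm]
    refine Finset.sum_congr rfl fun i _ => ?_
    rw [Finset.sum_comm]
    refine Finset.sum_congr rfl fun j _ => ?_
    rw [Finset.sum_comm]
    refine Finset.sum_congr rfl fun k _ => ?_
    rw [← Finset.mul_sum]
    congr 1
    simp only [br_T_three', add_mul, sub_mul, Finset.sum_add_distrib, Finset.sum_sub_distrib]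
    congr 1
    · congr 1
      · rw [Finset.sum_eq_single i]
        · simp
        · intro b _ hb
          simp [hb]
        · intro h
          exact absurd (Finset.mem_univ _) h
      · rw [Finset.sum_eq_single j]
        · simp
        · intro b _ hb
          simp [hb]
        · intro h
          exact absurd (Finset.mem_univ _) h
    · rw [Finset.sum_eq_single k]
      · simp
      · intro b _ hb
        simp [hb]
      · intro h
        exact absurd (Finset.mem_univ _) h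
  set S : A := ∑ i, ∑ j, ∑ k, (-(algebraMap ℚ A (1 / 6)) * vol3 ω i j k u) * (w2 Y i j * v k)
    with hS
  have s1 : ∑ i, ∑ j, ∑ k, (-(algebraMap ℚ A (1 / 6)) * vol3 ω i j k u) * (w2 Y i k * v j) =
      -S := by
    rw [hS, ← Finset.sum_neg_distrib]
    refine Finset.sum_congr rfl fun i _ => ?_
    rw [Finset.sum_comm, ← Finset.sum_neg_distrib]
    refine Finset.sum_congr rfl fun j _ => ?_
    rw [← Finset.sum_neg_distrib]
    refine Finset.sum_congr rfl fun k _ => ?_
    rw [vol3_swap' ω i k j u]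
    ring
  have s2 : ∑ i, ∑ j, ∑ k, (-(algebraMap ℚ A (1 / 6)) * vol3 ω i j k u) * (w2 Y j k * v i) =
      S := by
    rw [← neg_neg S, ← s1, Finset.sum_comm, ← Finset.sum_neg_distrib]
    refine Finset.sum_congr rfl fun i _ => ?_
    rw [← Finset.sum_neg_distrib]
    refine Finset.sum_congr rfl fun j _ => ?_
    rw [← Finset.sum_neg_distrib]
    refine Finset.sum_congr rfl fun k _ => ?_
    rw [vol3_swap ω j i k u]
    ring
  have e1 : fv (br (M5 ω u) Y) v = 3 * S := by
    rw [e0]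
    simp only [mul_add, mul_sub, Finset.sum_add_distrib, Finset.sum_sub_distrib]
    rw [s1, s2, ← hS]
    ring
  rw [e1, hS, nu6_apply]
  rw [← six_half (A := A), mul_assoc]
  congr 1
  rw [Finset.mul_sum]
  refine Finset.sum_congr rfl fun i _ => ?_
  rw [Finset.mul_sum]
  refine Finset.sum_congr rfl fun j _ => ?_
  rw [alt_snoc (n := 5) (vol2 ω i j) u v, ← vol3_lin]
  simp only [Finset.mul_sum, Finset.smul_sum]
  refine Finset.sum_congr rfl fun k _ => ?_
  simp
  ring

end

end Pool.Agent.Licci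
end

end

section

/-!
# LICCI, codimension 5 and 6: moves are decomposable (helper45)
-/

set_option linter.unusedSectionVars false

noncomputable section

namespace Pool.Agent.Licci

open scoped BigOperators

variable {A : Type*} [CommRing A]

/-- a matrix whose lower rows are those of the identity -/
theorem det_block (B : Matrix (Fin (3 + 5)) (Fin (3 + 5)) A)
    (hB : ∀ (a : Fin 5) (s : Fin (3 + 5)), B (Fin.natAdd 3 a) s =
      if Fin.natAdd 3 a = s then 1 else 0) :
    B.det = (B.submatrix (Fin.castAdd 5) (Fin.castAdd 5) : Matrix (Fin 3) (Fin 3) A).det := by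
  rw [← Matrix.det_submatrix_equiv_self finSumFinEquiv B]
  have h : B.submatrix finSumFinEquiv finSumFinEquiv = Matrix.fromBlocks
      (B.submatrix (Fin.castAdd 5) (Fin.castAdd 5)) (B.submatrix (Fin.castAdd 5) (Fin.natAdd 3))
      (0 : Matrix (Fin 5) (Fin 3) A) (1 : Matrix (Fin 5) (Fin 5) A) := by
    ext r s
    rcases r with r | r <;> rcases s with s | s
    · rw [Matrix.fromBlocks_apply₁₁, Matrix.submatrix_apply, Matrix.submatrix_apply,
        finSumFinEquiv_apply_left, finSumFinEquiv_apply_left]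
    · rw [Matrix.fromBlocks_apply₁₂, Matrix.submatrix_apply, Matrix.submatrix_apply,
        finSumFinEquiv_apply_left, finSumFinEquiv_apply_right]
    · rw [Matrix.fromBlocks_apply₂₁, Matrix.submatrix_apply, finSumFinEquiv_apply_right,
        finSumFinEquiv_apply_left, hB, if_neg]
      · rfl
      · intro h
        have := congrArg Fin.val h
        simp only [Fin.val_natAdd, Fin.val_castAdd] at this
        omega
    · rw [Matrix.fromBlocks_apply₂₂, Matrix.submatrix_apply, finSumFinEquiv_apply_right,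
        finSumFinEquiv_apply_right, hB, Matrix.one_apply]
      refine if_congr ?_ rfl rfl
      constructor
      · intro h
        have := congrArg Fin.val h
        simp only [Fin.val_natAdd] at this
        exact Fin.ext (by omega)
      · rintro rfl
        rfl
  rw [h, Matrix.det_fromBlocks_zero₂₁, Matrix.det_one, mul_one]

/-- the rows `e_i, e_j, e_k, u` -/
def rw8 (i j k : Fin 8) (u : Fin 5 → Vec A) : Matrix (Fin 8) (Fin 8) A :=
  Fin.cons (Pi.single i 1) (Fin.cons (Pi.single j 1) (Fin.cons (Pi.single k 1) u))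

theorem vol3_rw8 (ω : Vec A [⋀^Fin 8]→ₗ[A] A) (i j k : Fin 8) (u : Fin 5 → Vec A) :
    vol3 ω i j k u = ω (rw8 i j k u) := rfl

/-- an `8`-form which transforms by the determinant -/
def DetF (ω : Vec A [⋀^Fin 8]→ₗ[A] A) : Prop :=
  ∀ B C : Matrix (Fin 8) (Fin 8) A, ω (B * C) = B.det * ω C

theorem detF_gen {κ : Type*} [Fintype κ] [DecidableEq κ] (B C : Matrix κ κ A) :
    (Matrix.detRowAlternating : (κ → A) [⋀^κ]→ₗ[A] A) (B * C) =
      B.det * (Matrix.detRowAlternating : (κ → A) [⋀^κ]→ₗ[A] A) C := Matrix.det_mul B C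

theorem row_mul (B C : Matrix (Fin 8) (Fin 8) A) (r : Fin 8) (i : Fin 8)
    (h : B r = Pi.single i 1) : (B * C) r = C i := by
  funext s
  rw [Matrix.mul_apply, h, Finset.sum_eq_single i]
  · simp
  · intro b _ hb
    simp [hb]
  · intro h
    exact absurd (Finset.mem_univ _) h

theorem det_rw8 (g h : Matrix (Fin 8) (Fin 8) A) (hgh : g * h = 1) (i j k : Fin 8) :
    (rw8 i j k (fun a => g (Fin.natAdd 3 a)) * h).det =
      h i 0 * h j 1 * h k 2 - h i 0 * h j 2 * h k 1 - h i 1 * h j 0 * h k 2 +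
        h i 1 * h j 2 * h k 0 + h i 2 * h j 0 * h k 1 - h i 2 * h j 1 * h k 0 := by
  have e0 : (rw8 i j k (fun a => g (Fin.natAdd 3 a)) * h) 0 = h i := row_mul _ _ _ _ rfl
  have e1 : (rw8 i j k (fun a => g (Fin.natAdd 3 a)) * h) 1 = h j := row_mul _ _ _ _ rfl
  have e2 : (rw8 i j k (fun a => g (Fin.natAdd 3 a)) * h) 2 = h k := row_mul _ _ _ _ rfl
  have hB : ∀ (a : Fin 5) (s : Fin (3 + 5)),
      (rw8 i j k (fun a => g (Fin.natAdd 3 a)) * h) (Fin.natAdd 3 a) s =
        if Fin.natAdd 3 a = s then 1 else 0 := by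
    intro a s
    have h1 : (rw8 i j k (fun a => g (Fin.natAdd 3 a)) * h) (Fin.natAdd 3 a) s =
        (g * h) (Fin.natAdd 3 a) s := by
      rw [Matrix.mul_apply, Matrix.mul_apply]
      refine Finset.sum_congr rfl fun m _ => ?_
      have h2 : rw8 i j k (fun a => g (Fin.natAdd 3 a)) (Fin.natAdd 3 a) = g (Fin.natAdd 3 a) := by
        have h3 : (Fin.natAdd 3 a : Fin 8) = Fin.succ (Fin.succ (Fin.succ a)) := by
          apply Fin.ext
          simp only [Fin.val_natAdd, Fin.val_succ]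
          omega
        rw [h3]
        unfold rw8
        rw [Fin.cons_succ, Fin.cons_succ, Fin.cons_succ, h3]
      rw [h2]
    rw [h1, hgh, Matrix.one_apply]
  have h4 := det_block _ hB
  rw [h4, Matrix.det_fin_three]
  simp only [Matrix.submatrix_apply]
  have c0 : (Fin.castAdd 5 (0 : Fin 3) : Fin (3 + 5)) = (0 : Fin 8) := rfl
  have c1 : (Fin.castAdd 5 (1 : Fin 3) : Fin (3 + 5)) = (1 : Fin 8) := rfl
  have c2 : (Fin.castAdd 5 (2 : Fin 3) : Fin (3 + 5)) = (2 : Fin 8) := rfl
  rw [c0, c1, c2, e0, e1, e2]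

theorem sum_tri (x y z : Vec A) (c : A) :
    ∑ i, ∑ j, ∑ k, (c * (x i * y j * z k)) • T i j k = c • tri x y z := by
  unfold tri
  simp only [Finset.smul_sum, smul_smul]

variable [Algebra ℚ A]

/-- **Decomposability** -/
theorem M5_dec {ω : Vec A [⋀^Fin 8]→ₗ[A] A} (hω : DetF ω) (g h : Matrix (Fin 8) (Fin 8) A)
    (hgh : g * h = 1) :
    M5 ω (fun a => g (Fin.natAdd 3 a)) =
      (-(ω g)) • tri (fun r => h r 0) (fun r => h r 1) (fun r => h r 2) := by
  have hhg : h * g = 1 := mul_eq_one_comm.mp hgh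
  have key : ∀ i j k, vol3 ω i j k (fun a => g (Fin.natAdd 3 a)) = ω g *
      (h i 0 * h j 1 * h k 2 - h i 0 * h j 2 * h k 1 - h i 1 * h j 0 * h k 2 +
        h i 1 * h j 2 * h k 0 + h i 2 * h j 0 * h k 1 - h i 2 * h j 1 * h k 0) := by
    intro i j k
    rw [vol3_rw8, ← det_rw8 g h hgh i j k, mul_comm (ω g), ← hω, Matrix.mul_assoc, hhg,
      Matrix.mul_one]
  set x : Vec A := fun r => h r 0 with hx
  set y : Vec A := fun r => h r 1 with hy
  set z : Vec A := fun r => h r 2 with hz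
  have e : M5 ω (fun a => g (Fin.natAdd 3 a)) = (-(algebraMap ℚ A (1 / 6)) * ω g) •
      (tri x y z - tri x z y - tri y x z + tri y z x + tri z x y - tri z y x) := by
    unfold M5
    simp only [key, tri, ← Finset.sum_sub_distrib, ← Finset.sum_add_distrib, ← sub_smul,
      ← add_smul, Finset.smul_sum, smul_smul]
    refine Finset.sum_congr rfl fun i _ => Finset.sum_congr rfl fun j _ =>
      Finset.sum_congr rfl fun k _ => ?_
    congr 1
    simp only [hx, hy, hz]
    ring
  have t1 : tri x z y = - tri x y z := tri_swap_right x z y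
  have t2 : tri y x z = - tri x y z := tri_swap_left y x z
  have t3 : tri y z x = tri x y z := by rw [tri_swap_right y z x, t2, neg_neg]
  have t4 : tri z x y = tri x y z := by rw [tri_swap_left z x y, t1, neg_neg]
  have t5 : tri z y x = - tri x y z := by rw [tri_swap_left z y x, t3]
  rw [e, t1, t2, t3, t4, t5]
  have t6 : tri x y z - -tri x y z - -tri x y z + tri x y z + tri x y z - -tri x y z =
      (6 : A) • tri x y z := by
    simp only [sub_neg_eq_add]
    have : (6 : A) = 1 + 1 + 1 + 1 + 1 + 1 := by norm_num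
    rw [this]
    simp only [add_smul, one_smul]
  rw [t6, smul_smul]
  congr 1
  have h6 : algebraMap ℚ A (1 / 6) * 6 = 1 := by
    rw [← map_ofNat (algebraMap ℚ A) 6, ← map_mul]
    norm_num
  linear_combination (-(ω g)) * h6

end Pool.Agent.Licci
end

end

section

/-!
# LICCI, codimension 5 and 6: the effect of a move (helper45)
-/

set_option linter.unusedSectionVars false

noncomputable section

namespace Pool.Agent.Licci

open scoped BigOperators

/-! ### degrees -/

section deg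

variable {A : Type*} [CommRing A]

theorem T_zdg (i j k : Fin 8) (m : Fin 248) (hm : zdg m ≠ 1) : (T i j k : E8 A) m = 0 := by
  refine alt3_zero (fun i j k => (T i j k : E8 A) m) ?_ ?_ ?_ ?_ i j k
  · intro i j k
    rw [T_swap i j k, Pi.neg_apply]
  · intro i j k
    rw [T_swap' i j k, Pi.neg_apply]
  · intro i k
    rw [T_self, Pi.zero_apply]
  · intro i j k h1 h2
    unfold T
    rw [Pi.smul_apply, eb_apply, if_neg, smul_zero]
    rintro rfl
    exact hm (zdg_i1 i j k h1 h2)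

/-- support of a combination of `T i j k` -/
theorem sum_T_zero (c : Fin 8 → Fin 8 → Fin 8 → A) (m : Fin 248)
    (h : ∀ i j k, c i j k = 0 ∨ (T i j k : E8 A) m = 0) :
    (∑ i, ∑ j, ∑ k, c i j k • (T i j k : E8 A)) m = 0 := by
  rw [Finset.sum_apply]
  refine Finset.sum_eq_zero fun i _ => ?_
  rw [Finset.sum_apply]
  refine Finset.sum_eq_zero fun j _ => ?_
  rw [Finset.sum_apply]
  refine Finset.sum_eq_zero fun k _ => ?_
  rw [Pi.smul_apply, smul_eq_mul]
  rcases h i j k with h | h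
  · rw [h, zero_mul]
  · rw [h, mul_zero]

theorem br_sum_T (c : Fin 8 → Fin 8 → Fin 8 → A) (Y : E8 A) :
    br (∑ i, ∑ j, ∑ k, c i j k • (T i j k : E8 A)) Y =
      ∑ i, ∑ j, ∑ k, c i j k • br (T i j k : E8 A) Y := by
  rw [br_sum_left]
  refine Finset.sum_congr rfl fun i _ => ?_
  rw [br_sum_left]
  refine Finset.sum_congr rfl fun j _ => ?_
  rw [br_sum_left]
  refine Finset.sum_congr rfl fun k _ => ?_
  rw [br_smul_left]

variable [Algebra ℚ A]

theorem M5_zdg (ω : Vec A [⋀^Fin 8]→ₗ[A] A) (u : Fin 5 → Vec A) (m : Fin 248) (hm : zdg m ≠ 1) :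
    M5 ω u m = 0 :=
  sum_T_zero _ m fun i j k => Or.inr (T_zdg i j k m hm)

theorem br_M5_deg (ω : Vec A [⋀^Fin 8]→ₗ[A] A) (u : Fin 5 → Vec A) (Y : E8 A) (a : Fin 248)
    (h : ∀ b, dgE b + 1 = dgE a → Y b = 0) : br (M5 ω u) Y a = 0 := by
  unfold M5
  rw [br_sum_T, Finset.sum_apply]
  refine Finset.sum_eq_zero fun i _ => ?_
  rw [Finset.sum_apply]
  refine Finset.sum_eq_zero fun j _ => ?_
  rw [Finset.sum_apply]
  refine Finset.sum_eq_zero fun k _ => ?_
  rw [Pi.smul_apply, br_T_deg i j k Y a h, smul_zero]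

theorem M5_nil (ω : Vec A [⋀^Fin 8]→ₗ[A] A) (u : Fin 5 → Vec A) (t : A) :
    (brL (t • M5 ω u)) ^ 7 = 0 := by
  refine ad_nil_pos fun m hm => ?_
  rw [Pi.smul_apply, M5_zdg ω u m (by omega), smul_zero]

end deg

/-! ### the square of a move -/

section sq

variable {K : Type*} [Field K] [Algebra ℚ K]

/-- the determinant -/
def dF (A : Type*) [CommRing A] : Vec A [⋀^Fin 8]→ₗ[A] A := Matrix.detRowAlternating

theorem detF_dF {A : Type*} [CommRing A] : DetF (dF A) := fun B C => detF_gen B C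

theorem cram_dF {A : Type*} [CommRing A] : Cram (dF A) := cram_det

theorem dF_map_gen {A B : Type*} [CommRing A] [CommRing B] (φ : A →+* B) {κ : Type*} [Fintype κ]
    [DecidableEq κ] (b : κ → κ → A) :
    φ ((Matrix.detRowAlternating : (κ → A) [⋀^κ]→ₗ[A] A) b) =
      (Matrix.detRowAlternating : (κ → B) [⋀^κ]→ₗ[B] B) (fun r s => φ (b r s)) :=
  RingHom.map_det φ (Matrix.of b)

theorem dF_map {A B : Type*} [CommRing A] [CommRing B] (φ : A →+* B) (b : Fin 8 → Vec A) :
    φ (dF A b) = dF B (fun r s => φ (b r s)) := dF_map_gen φ b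

theorem detF_isUnit {κ : Type*} [Fintype κ] [DecidableEq κ] (g : Matrix κ κ K)
    (h : (Matrix.detRowAlternating : (κ → K) [⋀^κ]→ₗ[K] K) g ≠ 0) : IsUnit g.det :=
  isUnit_iff_ne_zero.mpr h

theorem dF_isUnit (g : Matrix (Fin 8) (Fin 8) K) (h : dF K g ≠ 0) : IsUnit g.det :=
  detF_isUnit (κ := Fin 8) g h

theorem dF_unit {A : Type*} [CommRing A] (g : Matrix (Fin 8) (Fin 8) A) (h : IsUnit g.det) :
    IsUnit (dF A g) := h

theorem dF_eq (A : Type*) [CommRing A] :
    dF A = (Matrix.detRowAlternating : Vec A [⋀^Fin 8]→ₗ[A] A) := rfl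

attribute [irreducible] dF

/-- over a field every move is decomposable -/
theorem M5_tri (u : Fin 5 → Vec K) : ∃ x y z : Vec K, M5 (dF K) u = tri x y z := by
  by_cases h : ∀ i j k, vol3 (dF K) i j k u = 0
  · refine ⟨0, 0, 0, ?_⟩
    have h1 : M5 (dF K) u = 0 := by
      unfold M5
      refine Finset.sum_eq_zero fun i _ => Finset.sum_eq_zero fun j _ =>
        Finset.sum_eq_zero fun k _ => ?_
      rw [h, mul_zero, zero_smul]
    rw [h1]
    unfold tri
    symm
    refine Finset.sum_eq_zero fun i _ => Finset.sum_eq_zero fun j _ =>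
      Finset.sum_eq_zero fun k _ => ?_
    rw [Pi.zero_apply, zero_mul, zero_mul, zero_smul]
  · push Not at h
    obtain ⟨i, j, k, h⟩ := h
    rw [vol3_rw8] at h
    set g := rw8 i j k u with hg
    have hgu : IsUnit g.det := dF_isUnit g h
    have hgg : g * g⁻¹ = 1 := Matrix.mul_nonsing_inv g hgu
    have hu : u = fun a : Fin 5 => g (Fin.natAdd 3 a) := by
      funext a
      have h3 : (Fin.natAdd 3 a : Fin 8) = Fin.succ (Fin.succ (Fin.succ a)) := by
        apply Fin.ext
        simp only [Fin.val_natAdd, Fin.val_succ]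
        omega
      rw [hg, h3]
      unfold rw8
      rw [Fin.cons_succ, Fin.cons_succ, Fin.cons_succ]
    have hd := M5_dec (detF_dF (A := K)) g g⁻¹ hgg
    rw [← hu] at hd
    refine ⟨(-(dF K g)) • (fun r => g⁻¹ r 0), fun r => g⁻¹ r 1, fun r => g⁻¹ r 2, ?_⟩
    rw [tri_smul_left, hd]

theorem p3_M5_M5_field (u : Fin 5 → Vec K) (Z : E8 K) :
    p3 (br (M5 (dF K) u) (br (M5 (dF K) u) Z)) = 0 := by
  obtain ⟨x, y, z, h⟩ := M5_tri u
  rw [h]
  exact p3_tri_tri x y z Z

end sq

/-! ### base change -/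

section map

variable {A B : Type*} [CommRing A] [CommRing B] (φ : A →+* B)

theorem vol3_map (i j k : Fin 8) (u : Fin 5 → Vec A) :
    φ (vol3 (dF A) i j k u) = vol3 (dF B) i j k (fun a => φ ∘ u a) := by
  rw [vol3_rw8, vol3_rw8]
  refine (dF_map φ (rw8 i j k u)).trans ?_
  congr 1
  funext r s
  unfold rw8
  have hs : ∀ (i s : Fin 8), φ ((Pi.single i 1 : Vec A) s) = (Pi.single i 1 : Vec B) s := by
    intro i s
    rw [Pi.single_apply, Pi.single_apply]
    split_ifs
    · exact map_one φ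
    · exact map_zero φ
  refine Fin.cases ?_ (fun r => ?_) r
  · exact hs i s
  · refine Fin.cases ?_ (fun r => ?_) r
    · exact hs j s
    · refine Fin.cases ?_ (fun r => ?_) r
      · exact hs k s
      · rfl

theorem T_map (i j k : Fin 8) : φ ∘ (T i j k : E8 A) = T i j k := by
  funext m
  unfold T
  rw [Function.comp_apply, Pi.smul_apply, Pi.smul_apply, smul_eq_mul, smul_eq_mul, map_mul,
    map_intCast, eb_apply, eb_apply]
  congr 1
  split_ifs
  · exact map_one φ
  · exact map_zero φ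

variable [Algebra ℚ A] [Algebra ℚ B]

theorem M5_map (u : Fin 5 → Vec A) :
    φ ∘ M5 (dF A) u = M5 (dF B) (fun a => φ ∘ u a) := by
  unfold M5
  funext m
  simp only [Function.comp_apply, Finset.sum_apply, Pi.smul_apply, smul_eq_mul, map_sum, map_mul,
    map_neg, vol3_map, φ.map_rat_algebraMap]
  refine Finset.sum_congr rfl fun i _ => Finset.sum_congr rfl fun j _ =>
    Finset.sum_congr rfl fun k _ => ?_
  rw [← T_map (φ := φ)]
  rfl

end map

/-- `p` is extremal -/
def Ext {R : Type*} [CommRing R] (p : E8 R) : Prop :=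
  ∀ y : E8 R, ∃ t : R, br p (br p y) = t • p

/-! ### moves over a domain -/

section move

variable {R : Type*} [CommRing R] [IsDomain R] [Algebra ℚ R]

/-- the component of degree `3` of the square of a move -/
theorem p3_M5_M5 (u : Fin 5 → Vec R) (Z : E8 R) :
    p3 (br (M5 (dF R) u) (br (M5 (dF R) u) Z)) = 0 := by
  let K := FractionRing R
  let _ : Algebra ℚ K := ((algebraMap R K).comp (algebraMap ℚ R)).toAlgebra
  let φ : R →+* K := algebraMap R K
  have hφ : Function.Injective φ := IsFractionRing.injective R K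
  have h := p3_M5_M5_field (K := K) (fun a => φ ∘ u a) (φ ∘ Z)
  rw [← M5_map, ← br_map, ← br_map] at h
  funext i
  apply hφ
  rw [Pi.zero_apply, map_zero]
  exact congrFun h i

theorem nu6_M5 (u : Fin 5 → Vec R) (Z : E8 R) (w : Vec R) :
    nu6 (dF R) (br (M5 (dF R) u) Z) (Fin.snoc u w) = 0 := by
  rw [← fv_M5, fv_apply]
  refine Finset.sum_eq_zero fun m _ => ?_
  rw [p3_M5_M5, Pi.zero_apply, zero_mul]

theorem w2_add' (Y Z : E8 R) (i j : Fin 8) : w2 (Y + Z) i j = w2 Y i j + w2 Z i j := by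
  simp only [w2, Pi.add_apply]
  ring

theorem nu6_add (ω : Vec R [⋀^Fin 8]→ₗ[R] R) (Y Z : E8 R) (a : Fin 6 → Vec R) :
    nu6 ω (Y + Z) a = nu6 ω Y a + nu6 ω Z a := by
  rw [nu6_apply, nu6_apply, nu6_apply, ← mul_add, ← Finset.sum_add_distrib]
  congr 1
  refine Finset.sum_congr rfl fun i _ => ?_
  rw [← Finset.sum_add_distrib]
  refine Finset.sum_congr rfl fun j _ => ?_
  rw [w2_add']
  ring

/-- second order expansion of the exponential -/
theorem ex_two (M p : E8 R) : ∃ Z : E8 R, ex M p = p + br M p + br M (br M Z) ∧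
    ∃ Z' : E8 R, ex M p = p + br M Z' := by
  set c : ℕ → R := fun n => algebraMap ℚ R ((n.factorial : ℚ)⁻¹) with hc
  have e1 : ex M p = ∑ n ∈ Finset.range 7, c n • ((brL M) ^ n) p := ex_apply M p
  have hp : ∀ n (x : E8 R), ((brL M) ^ (n + 1)) x = br M (((brL M) ^ n) x) := by
    intro n x
    rw [pow_succ']
    rfl
  have hs : ∀ (s : Finset ℕ) (g : ℕ → E8 R), br M (∑ n ∈ s, g n) = ∑ n ∈ s, br M (g n) :=
    fun s g => br_sum_right s M g
  have hZ : ex M p = p + br M p +
      br M (br M (∑ n ∈ Finset.range 5, c (n + 2) • ((brL M) ^ n) p)) := by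
    rw [e1, Finset.sum_range_succ', Finset.sum_range_succ', hs, hs]
    have c0 : c 0 = 1 := by simp [hc]
    have c1 : c (0 + 1) = 1 := by simp [hc]
    rw [c0, c1, one_smul, one_smul, add_comm, add_comm _ (((brL M) ^ (0 + 1)) p), ← add_assoc]
    congr 1
    refine Finset.sum_congr rfl fun n _ => ?_
    rw [br_smul_right, br_smul_right, ← hp, ← hp]
  refine ⟨_, hZ, p + br M (∑ n ∈ Finset.range 5, c (n + 2) • ((brL M) ^ n) p), ?_⟩
  rw [br_add_right, ← add_assoc]
  exact hZ

/-- the form after a move -/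
theorem fv_move (u : Fin 5 → Vec R) (t : R) (p : E8 R) (v : Vec R) :
    fv (ex (t • M5 (dF R) u) p) v = fv p v + t * nu6 (dF R) p (Fin.snoc u v) := by
  obtain ⟨Z, hZ, -⟩ := ex_two (t • M5 (dF R) u) p
  rw [hZ]
  have h1 : ∀ X Y : E8 R, fv (X + Y) v = fv X v + fv Y v := by
    intro X Y
    rw [fv_apply, fv_apply, fv_apply, ← Finset.sum_add_distrib]
    refine Finset.sum_congr rfl fun m _ => ?_
    change (X (ix m) + Y (ix m)) * v m = X (ix m) * v m + Y (ix m) * v m
    ring
  have h2 : ∀ (c : R) (X : E8 R), fv (c • X) v = c * fv X v := by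
    intro c X
    rw [fv_apply, fv_apply, Finset.mul_sum]
    refine Finset.sum_congr rfl fun m _ => ?_
    change c * X (ix m) * v m = c * (X (ix m) * v m)
    ring
  have h3 : fv (br (M5 (dF R) u) (br (M5 (dF R) u) Z)) v = 0 := by
    rw [fv_apply]
    refine Finset.sum_eq_zero fun m _ => ?_
    rw [p3_M5_M5, Pi.zero_apply, zero_mul]
  rw [h1, h1, br_smul_left, br_smul_left, br_smul_left, br_smul_right, h2, h2, h2, h3, mul_zero,
    mul_zero, add_zero, fv_M5]

/-- the `6`-form after a move -/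
theorem nu6_move (u : Fin 5 → Vec R) (t : R) (p : E8 R) (w : Vec R) :
    nu6 (dF R) (ex (t • M5 (dF R) u) p) (Fin.snoc u w) = nu6 (dF R) p (Fin.snoc u w) := by
  obtain ⟨-, -, Z, hZ⟩ := ex_two (t • M5 (dF R) u) p
  rw [hZ, nu6_add, br_smul_left, ← br_smul_right, nu6_M5, add_zero]

/-! ### extremality -/


theorem Ext.ex {p : E8 R} (hp : Ext p) {M : E8 R} (hM : (brL M) ^ 7 = 0) : Ext (ex M p) := by
  intro y
  obtain ⟨t, ht⟩ := hp (Licci.ex (-M) y)
  refine ⟨t, ?_⟩
  have h1 : y = Licci.ex M (Licci.ex (-M) y) := (ex_ex_neg hM y).symm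
  rw [h1, ← ex_br hM, ← ex_br hM, ht, map_smul]

theorem exists_third : ∀ i q : Fin 8, ∃ j : Fin 8, j ≠ i ∧ j ≠ q := by decide

/-- extremality implies `ι_f ζ = 0` -/
theorem Ext.om {p : E8 R} (hp : Ext p) (i : Fin 8) : ∑ s, w2 p s i * p3 p s = 0 := by
  have h2 : (2 : R) ≠ 0 := by
    intro h
    have h3 : algebraMap ℚ R (2⁻¹ : ℚ) * 2 = 1 := by
      rw [← map_ofNat (algebraMap ℚ R) 2, ← map_mul]
      norm_num
    rw [h, mul_zero] at h3
    exact zero_ne_one h3
  set F : Fin 8 → R := fun i => ∑ s, w2 p s i * p3 p s with hF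
  have hTh : ∀ i, Th p p (Pi.single i 1) = 2 * F i := by
    intro i
    rw [FormA3.Th_single, hF]
    simp only
    rw [Finset.mul_sum]
    refine Finset.sum_congr rfl fun s _ => ?_
    ring
  change F i = 0
  by_cases h0 : ∀ q, p3 p q = 0
  · rw [hF]
    refine Finset.sum_eq_zero fun s _ => ?_
    rw [h0, mul_zero]
  push Not at h0
  obtain ⟨q, hq⟩ := h0
  have hlow : ∀ i j, i < j → ∃ t : R, ∀ r, (if r = j then 2 * F i else 0) -
      (if r = i then 2 * F j else 0) + w2 p i j * p3 p r + w2 p i j * p3 p r = t * p3 p r := by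
    intro i j hij
    obtain ⟨t, ht⟩ := hp (eb (im2 i j))
    refine ⟨t, fun r => ?_⟩
    rw [← hTh, ← hTh, ← p3_low p p i j r hij, ht]
    rfl
  have hother : ∀ i, i ≠ q → F i = 0 := by
    intro i hi
    obtain ⟨j, hji, hjq⟩ := exists_third i q
    rcases lt_or_gt_of_ne hji with hlt | hlt
    · obtain ⟨t, ht⟩ := hlow j i hlt
      have e1 := ht q
      rw [if_neg (Ne.symm hi), if_neg (Ne.symm hjq)] at e1
      have e2 := ht j
      rw [if_neg (ne_of_lt hlt), if_pos rfl] at e2
      have e3 : (w2 p j i + w2 p j i - t) * p3 p q = 0 := by linear_combination e1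
      have e4 : w2 p j i + w2 p j i - t = 0 := by
        rcases mul_eq_zero.mp e3 with h | h
        · exact h
        · exact absurd h hq
      have e5 : 2 * F i = 0 := by linear_combination e4 * p3 p j - e2
      exact (mul_eq_zero.mp e5).resolve_left h2
    · obtain ⟨t, ht⟩ := hlow i j hlt
      have e1 := ht q
      rw [if_neg (Ne.symm hjq), if_neg (Ne.symm hi)] at e1
      have e2 := ht j
      rw [if_pos rfl, if_neg (ne_of_gt hlt)] at e2
      have e3 : (w2 p i j + w2 p i j - t) * p3 p q = 0 := by linear_combination e1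
      have e4 : w2 p i j + w2 p i j - t = 0 := by
        rcases mul_eq_zero.mp e3 with h | h
        · exact h
        · exact absurd h hq
      have e5 : 2 * F i = 0 := by linear_combination e2 - e4 * p3 p j
      exact (mul_eq_zero.mp e5).resolve_left h2
  by_cases hi : i = q
  · subst hi
    have hsum : ∑ i, F i * p3 p i = 0 := by
      have e1 : ∑ i, F i * p3 p i = ∑ i, ∑ s, w2 p s i * (p3 p s * p3 p i) := by
        refine Finset.sum_congr rfl fun i _ => ?_
        rw [hF]
        simp only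
        rw [Finset.sum_mul]
        refine Finset.sum_congr rfl fun s _ => ?_
        ring
      have e2 : ∑ i, ∑ s, w2 p s i * (p3 p s * p3 p i) =
          - ∑ i, ∑ s, w2 p s i * (p3 p s * p3 p i) := by
        conv_lhs => rw [Finset.sum_comm]
        rw [← Finset.sum_neg_distrib]
        refine Finset.sum_congr rfl fun i _ => ?_
        rw [← Finset.sum_neg_distrib]
        refine Finset.sum_congr rfl fun s _ => ?_
        rw [w2_swap p i s]
        ring
      rw [e1]
      have e3 : 2 * ∑ i, ∑ s, w2 p s i * (p3 p s * p3 p i) = 0 := by linear_combination e2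
      exact (mul_eq_zero.mp e3).resolve_left h2
    rw [Finset.sum_eq_single i] at hsum
    · exact (mul_eq_zero.mp hsum).resolve_right hq
    · intro b _ hb
      rw [hother b hb, zero_mul]
    · intro h
      exact absurd (Finset.mem_univ _) h
  · exact hother i hi

end move

end Pool.Agent.Licci
end

end

section

/-!
# LICCI, codimension 5 and 6: `6`-forms on `R ^ 8` and `2`-vectors (helper45)
-/

set_option linter.unusedSectionVars false

noncomputable section

namespace Pool.Agent.Licci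

open scoped BigOperators

/-! ### `f ∧ ν = 0` in the form of a sum -/

section cyc

variable {R M : Type*} [CommRing R] [AddCommGroup M] [Module R M]

theorem cyc_of_wedge {n : ℕ} (f : M →ₗ[R] R) (ν : M [⋀^Fin (n + 1)]→ₗ[R] R)
    (h : wedge f (n + 1) ν = 0) (a : Fin (n + 1) → M) (v : M) :
    ∑ j, f (a j) * ν (Function.update a j v) = f v * ν a := by
  have h1 : wedge f (n + 1) ν (Fin.cons v a) = 0 := by
    rw [h]
    rfl
  rw [wedge_apply, Fin.sum_univ_succ] at h1
  have h2 : (Fin.removeNth 0 (Fin.cons v a : Fin (n + 2) → M)) = a := by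
    rw [Fin.removeNth_zero, Fin.tail_cons]
  have h3 : ∀ j : Fin (n + 1), ν (Function.update a j v) =
      (-1 : ℤ) ^ (j : ℕ) • ν (Fin.cons v (j.removeNth a)) := by
    intro j
    rw [← Fin.insertNth_removeNth, AlternatingMap.map_insertNth]
    rfl
  have h4 : ∀ j : Fin (n + 1), (Fin.removeNth j.succ (Fin.cons v a : Fin (n + 2) → M)) =
      (Fin.cons v (j.removeNth a) : Fin (n + 1) → M) := by
    intro j
    funext r
    refine Fin.cases ?_ (fun r => ?_) r
    · rw [Fin.removeNth_apply, Fin.succ_succAbove_zero, Fin.cons_zero, Fin.cons_zero]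
    · rw [Fin.removeNth_apply, Fin.succ_succAbove_succ, Fin.cons_succ, Fin.cons_succ,
        Fin.removeNth_apply]
  rw [h2] at h1
  simp only [h4, Fin.cons_zero, Fin.cons_succ, Fin.val_zero, pow_zero, one_smul, smul_eq_mul,
    Fin.val_succ] at h1
  rw [← sub_eq_zero, ← neg_eq_zero, neg_sub, ← h1, sub_eq_add_neg, ← Finset.sum_neg_distrib]
  congr 1
  refine Finset.sum_congr rfl fun j _ => ?_
  rw [h3, pow_succ]
  simp only [mul_neg, mul_one, neg_smul]
  rw [mul_smul_comm]

end cyc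

/-! ### combinatorics -/

/-- the complement of `p, q`, increasing -/
def cpl6 (p q : Fin 8) (r : Fin 6) : Fin 8 :=
  ((List.finRange 8).filter fun x => x ≠ p ∧ x ≠ q).getD r 0

set_option maxRecDepth 100000 in
theorem cpl6_chk : ∀ p q : Fin 8, p ≠ q → (∀ r s : Fin 6, cpl6 p q r = cpl6 p q s → r = s) ∧
    (∀ r, cpl6 p q r ≠ p ∧ cpl6 p q r ≠ q) ∧ ∀ r, cpl6 p q r = cpl6 q p r := by
  decide +kernel

theorem range_tail {p q : Fin 8} {t : Fin 6 → Fin 8} (hpq : p ≠ q)
    (ht : Function.Injective t) (hp : ∀ r, t r ≠ p ∧ t r ≠ q) :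
    ∀ x, x ≠ p → x ≠ q → ∃ r, t r = x := by
  intro x hx1 hx2
  have hs : Function.Injective (Fin.cons p (Fin.cons q t : Fin 7 → Fin 8) : Fin 8 → Fin 8) := by
    rw [Fin.cons_injective_iff]
    refine ⟨?_, ?_⟩
    · rintro ⟨r, hr⟩
      refine Fin.cases (fun h => ?_) (fun r h => ?_) r hr
      · exact hpq h.symm
      · exact (hp r).1 h
    · rw [Fin.cons_injective_iff]
      refine ⟨?_, ht⟩
      rintro ⟨r, hr⟩
      exact (hp r).2 hr
  obtain ⟨r, hr⟩ := (Finite.injective_iff_surjective.mp hs) x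
  refine Fin.cases (fun h => ?_) (fun r h => ?_) r hr
  · exact absurd h.symm hx1
  · refine Fin.cases (fun h => ?_) (fun r h => ?_) r h
    · exact absurd h.symm hx2
    · exact ⟨r, h⟩

theorem exists_perm_tail {t t' : Fin 6 → Fin 8} (ht : Function.Injective t)
    (ht' : Function.Injective t') (h : ∀ r, ∃ s, t s = t' r) :
    ∃ σ : Equiv.Perm (Fin 6), t' = t ∘ σ := by
  choose σ hσ using h
  have hinj : Function.Injective σ := by
    intro r s hrs
    apply ht'
    rw [← hσ, ← hσ, hrs]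
  refine ⟨Equiv.ofBijective σ (Finite.injective_iff_bijective.mp hinj), ?_⟩
  funext r
  exact (hσ r).symm

/-- two missing indices of an injective `6`-tuple -/
theorem exists_missing (t : Fin 6 → Fin 8) :
    ∃ p q : Fin 8, p ≠ q ∧ ∀ r, t r ≠ p ∧ t r ≠ q := by
  classical
  have hc : 1 < (Finset.univ \ Finset.univ.image t : Finset (Fin 8)).card := by
    rw [Finset.card_sdiff_of_subset (Finset.subset_univ _)]
    have h1 : (Finset.univ.image t).card ≤ 6 := by
      have := Finset.card_image_le (s := (Finset.univ : Finset (Fin 6))) (f := t)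
      simpa using this
    have h2 : (Finset.univ : Finset (Fin 8)).card = 8 := by simp
    omega
  obtain ⟨p, hp, q, hq, hpq⟩ := Finset.one_lt_card.mp hc
  refine ⟨p, q, hpq, fun r => ⟨?_, ?_⟩⟩
  · rintro rfl
    simp at hp
  · rintro rfl
    simp at hq

variable {A : Type*} [CommRing A]

/-- basis tuple -/
def bt {n : ℕ} (t : Fin n → Fin 8) : Fin n → Vec A := fun r => Pi.single (t r) 1

theorem alt_perm_sq {n : ℕ} {M : Type*} [AddCommGroup M] [Module A M]
    (α β : M [⋀^Fin n]→ₗ[A] A) (t : Fin n → M) (σ : Equiv.Perm (Fin n)) :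
    α (t ∘ σ) * β (t ∘ σ) = α t * β t := by
  rw [AlternatingMap.map_perm, AlternatingMap.map_perm]
  rcases Int.units_eq_one_or (Equiv.Perm.sign σ) with h | h
  · rw [h, one_smul, one_smul]
  · rw [h, Units.smul_def, Units.smul_def]
    simp

/-- squares of values on permutations of the basis -/
def SqF {κ : Type*} [Fintype κ] [DecidableEq κ] (ω : (κ → A) [⋀^κ]→ₗ[A] A) : Prop :=
  ∀ s : κ → κ, Function.Injective s →
    ω (fun r => Pi.single (s r) 1) * ω (fun r => Pi.single (s r) 1) = 1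

/-- squares of determinants of permutations -/
theorem sqF_det {κ : Type*} [Fintype κ] [DecidableEq κ] :
    SqF (Matrix.detRowAlternating : (κ → A) [⋀^κ]→ₗ[A] A) := by
  intro s hs
  set g : Matrix κ κ A := Matrix.of fun r => Pi.single (s r) 1 with hg
  have h1 : g * g.transpose = 1 := by
    ext r r'
    rw [Matrix.mul_apply, Matrix.one_apply]
    change ∑ m, (Pi.single (s r) 1 : κ → A) m * (Pi.single (s r') 1 : κ → A) m = _
    rw [Finset.sum_eq_single (s r)]
    · rw [Pi.single_eq_same, one_mul, Pi.single_apply]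
      refine if_congr ?_ rfl rfl
      exact ⟨fun h => hs h, fun h => by rw [h]⟩
    · intro b _ hb
      rw [Pi.single_eq_of_ne hb, zero_mul]
    · intro h
      exact absurd (Finset.mem_univ _) h
  have h7 := congrArg Matrix.det h1
  rw [Matrix.det_mul, Matrix.det_transpose, Matrix.det_one] at h7
  exact h7

theorem sqF_dF : SqF (dF A) := by
  rw [dF_eq]
  exact sqF_det

theorem vol2_bt_sq {ω : Vec A [⋀^Fin 8]→ₗ[A] A} (hS : SqF ω) {p q : Fin 8} (hpq : p ≠ q) {t : Fin 6 → Fin 8} (ht : Function.Injective t)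
    (hp : ∀ r, t r ≠ p ∧ t r ≠ q) :
    vol2 ω p q (bt t) * vol2 ω p q (bt t) = 1 := by
  have hs : Function.Injective (Fin.cons p (Fin.cons q t : Fin 7 → Fin 8) : Fin 8 → Fin 8) := by
    rw [Fin.cons_injective_iff]
    refine ⟨?_, ?_⟩
    · rintro ⟨r, hr⟩
      refine Fin.cases (fun h => ?_) (fun r h => ?_) r hr
      · exact hpq h.symm
      · exact (hp r).1 h
    · rw [Fin.cons_injective_iff]
      refine ⟨?_, ht⟩
      rintro ⟨r, hr⟩
      exact (hp r).2 hr
  have h1 : ω (bt _) * ω (bt _) = 1 := hS _ hs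
  have h2 : (bt (Fin.cons p (Fin.cons q t : Fin 7 → Fin 8) : Fin 8 → Fin 8) : Fin 8 → Vec A) =
      Fin.cons (Pi.single p 1) (Fin.cons (Pi.single q 1) (bt t)) := by
    funext r
    refine Fin.cases ?_ (fun r => ?_) r
    · rfl
    · refine Fin.cases ?_ (fun r => ?_) r
      · rfl
      · rfl
  rw [h2] at h1
  rw [vol2_apply]
  exact h1

/-- `vol2` with a repeated index -/
theorem vol2_bt_zero (ω : Vec A [⋀^Fin 8]→ₗ[A] A) {i j : Fin 8} {t : Fin 6 → Fin 8}
    (h : i = j ∨ (∃ r, t r = i) ∨ ∃ r, t r = j) : vol2 ω i j (bt t) = 0 := by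
  rw [vol2_apply]
  rcases h with h | ⟨r, hr⟩ | ⟨r, hr⟩
  · subst h
    exact ω.map_eq_zero_of_eq _ (i := 0) (j := 1) rfl (by decide)
  · refine ω.map_eq_zero_of_eq _ (i := 0) (j := r.succ.succ) ?_ ?_
    · rw [Fin.cons_zero, Fin.cons_succ, Fin.cons_succ]
      unfold bt
      rw [hr]
    · exact (Fin.succ_ne_zero _).symm
  · refine ω.map_eq_zero_of_eq _ (i := 1) (j := r.succ.succ) ?_ ?_
    · rw [Fin.cons_succ, Fin.cons_succ]
      unfold bt
      rw [hr]
      rfl
    · intro h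
      have := congrArg Fin.val h
      simp at this

/-- the `2`-vector of a `6`-form -/
def zt (ω : Vec A [⋀^Fin 8]→ₗ[A] A) (ν : Vec A [⋀^Fin 6]→ₗ[A] A) (p q : Fin 8) : A :=
  if p = q then 0 else vol2 ω p q (bt (cpl6 p q)) * ν (bt (cpl6 p q))

variable [Algebra ℚ A]

theorem zt_self (ω : Vec A [⋀^Fin 8]→ₗ[A] A) (ν : Vec A [⋀^Fin 6]→ₗ[A] A) (p : Fin 8) : zt ω ν p p = 0 := by
  unfold zt
  rw [if_pos rfl]

theorem zt_swap (ω : Vec A [⋀^Fin 8]→ₗ[A] A) (ν : Vec A [⋀^Fin 6]→ₗ[A] A) (p q : Fin 8) : zt ω ν p q = - zt ω ν q p := by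
  unfold zt
  by_cases h : p = q
  · rw [if_pos h, if_pos h.symm, neg_zero]
  · rw [if_neg h, if_neg (Ne.symm h), vol2_swap]
    have h2 : cpl6 p q = cpl6 q p := funext fun r => (cpl6_chk p q h).2.2 r
    rw [h2]
    ring

theorem zt_eq (ω : Vec A [⋀^Fin 8]→ₗ[A] A) (ν : Vec A [⋀^Fin 6]→ₗ[A] A) {p q : Fin 8} (hpq : p ≠ q) {t : Fin 6 → Fin 8}
    (ht : Function.Injective t) (hp : ∀ r, t r ≠ p ∧ t r ≠ q) :
    zt ω ν p q = vol2 ω p q (bt t) * ν (bt t) := by
  unfold zt
  rw [if_neg hpq]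
  obtain ⟨h1, h2, -⟩ := cpl6_chk p q hpq
  obtain ⟨σ, hσ⟩ := exists_perm_tail ht (fun r s h => h1 r s h)
    (fun r => range_tail hpq ht hp _ (h2 r).1 (h2 r).2)
  have h3 : (bt (cpl6 p q) : Fin 6 → Vec A) = bt t ∘ σ := by
    funext r
    unfold bt
    rw [hσ]
    rfl
  rw [h3]
  exact alt_perm_sq _ _ _ σ

theorem half_two : algebraMap ℚ A (1 / 2) * 2 = 1 := by
  rw [← map_ofNat (algebraMap ℚ A) 2, ← map_mul]
  norm_num

/-- every `6`-form comes from a `2`-vector -/
theorem nu6_of_zt {ω : Vec A [⋀^Fin 8]→ₗ[A] A} (hS : SqF ω) (ν : Vec A [⋀^Fin 6]→ₗ[A] A) (Y : E8 A) (h : ∀ i j, w2 Y i j = zt ω ν i j) :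
    nu6 ω Y = ν := by
  refine Module.Basis.ext_alternating (Pi.basisFun A (Fin 8)) fun v hv => ?_
  have e : (fun i => (Pi.basisFun A (Fin 8)) (v i)) = (bt v : Fin 6 → Vec A) := by
    funext i
    rw [Pi.basisFun_apply]
    rfl
  rw [e, nu6_apply]
  obtain ⟨p, q, hpq, hm⟩ := exists_missing v
  have hr := range_tail hpq hv hm
  have hz : ∀ i j, ¬ (i = p ∧ j = q) → ¬ (i = q ∧ j = p) →
      w2 Y i j * vol2 ω i j (bt v) = 0 := by
    intro i j h1 h2
    rw [vol2_bt_zero, mul_zero]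
    by_cases hij : i = j
    · exact Or.inl hij
    right
    by_cases hi : i ≠ p ∧ i ≠ q
    · exact Or.inl (hr i hi.1 hi.2)
    by_cases hj : j ≠ p ∧ j ≠ q
    · exact Or.inr (hr j hj.1 hj.2)
    exfalso
    rw [not_and_or, not_not, not_not] at hi hj
    rcases hi with rfl | rfl <;> rcases hj with rfl | rfl
    · exact hij rfl
    · exact h1 ⟨rfl, rfl⟩
    · exact h2 ⟨rfl, rfl⟩
    · exact hij rfl
  have hs : ∑ i, ∑ j, w2 Y i j * vol2 ω i j (bt v) =
      2 * (w2 Y p q * vol2 ω p q (bt v)) := by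
    rw [← Finset.sum_product', Finset.univ_product_univ,
      ← Finset.sum_subset (Finset.subset_univ {(p, q), (q, p)})]
    · rw [Finset.sum_pair (by
        intro h
        exact hpq (congrArg Prod.fst h))]
      rw [w2_swap Y q p, vol2_swap ω q p]
      ring
    · rintro ⟨i, j⟩ - hij
      apply hz i j
      · rintro ⟨rfl, rfl⟩
        simp at hij
      · rintro ⟨rfl, rfl⟩
        simp at hij
  rw [hs, ← mul_assoc, half_two, one_mul, h, zt_eq ω ν hpq hv hm]
  have h1 := vol2_bt_sq hS hpq hv hm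
  linear_combination (ν (bt v)) * h1

/-- a closed `6`-form gives a Koszul cycle -/
theorem zt_closed {ω : Vec A [⋀^Fin 8]→ₗ[A] A} (hS : SqF ω) (hc : Cram ω) (f : Vec A →ₗ[A] A) (ν : Vec A [⋀^Fin 6]→ₗ[A] A)
    (hν : ∀ (a : Fin 6 → Vec A) (v : Vec A),
      ∑ j, f (a j) * ν (Function.update a j v) = f v * ν a) (q : Fin 8) :
    ∑ i, f (Pi.single i 1) * zt ω ν i q = 0 := by
  -- a state with the given two-vector
  obtain ⟨Y, hY⟩ : ∃ Y : E8 A, ∀ i j, w2 Y i j = zt ω ν i j :=
    ⟨W2 (zt ω ν), w2_W2 _ (zt_self ω ν) (zt_swap ω ν)⟩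
  have hnu := nu6_of_zt hS ν Y hY
  set F : Fin 8 → A := fun q => ∑ i, f (Pi.single i 1) * zt ω ν i q with hF
  have key : ∀ (a : Fin 6 → Vec A) (v : Vec A),
      ∑ q, F q * ω (Fin.cons v (Fin.cons (Pi.single q 1) a)) = 0 := by
    intro a v
    have h1 := hν a v
    rw [← hnu] at h1
    simp only [nu6_apply] at h1
    have e1 : ∑ j, f (a j) * (algebraMap ℚ A (1 / 2) *
        ∑ p, ∑ q, w2 Y p q * vol2 ω p q (Function.update a j v)) =
        algebraMap ℚ A (1 / 2) * ∑ p, ∑ q, w2 Y p q *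
          ∑ l, f (a l) * vol2 ω p q (Function.update a l v) := by
      simp only [Finset.mul_sum]
      rw [Finset.sum_comm]
      refine Finset.sum_congr rfl fun p _ => ?_
      rw [Finset.sum_comm]
      refine Finset.sum_congr rfl fun q _ => ?_
      refine Finset.sum_congr rfl fun l _ => ?_
      ring
    rw [e1] at h1
    simp only [hc.vol2] at h1
    have e2 : ∑ p, ∑ q, w2 Y p q * (f v * vol2 ω p q a -
        f (Pi.single p 1) * ω (Fin.cons v (Fin.cons (Pi.single q 1) a)) -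
        f (Pi.single q 1) * ω (Fin.cons (Pi.single p 1) (Fin.cons v a))) =
        f v * ∑ p, ∑ q, w2 Y p q * vol2 ω p q a -
        2 * ∑ q, F q * ω (Fin.cons v (Fin.cons (Pi.single q 1) a)) := by
      have e3 : ∑ p, ∑ q, w2 Y p q * (f (Pi.single p 1) *
          ω (Fin.cons v (Fin.cons (Pi.single q 1) a))) =
          ∑ q, F q * ω (Fin.cons v (Fin.cons (Pi.single q 1) a)) := by
        rw [Finset.sum_comm]
        refine Finset.sum_congr rfl fun q _ => ?_
        rw [hF]
        simp only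
        rw [Finset.sum_mul]
        refine Finset.sum_congr rfl fun p _ => ?_
        rw [hY]
        ring
      have e4 : ∑ p, ∑ q, w2 Y p q * (f (Pi.single q 1) *
          ω (Fin.cons (Pi.single p 1) (Fin.cons v a))) =
          ∑ q, F q * ω (Fin.cons v (Fin.cons (Pi.single q 1) a)) := by
        refine Finset.sum_congr rfl fun p _ => ?_
        rw [hF]
        simp only
        rw [Finset.sum_mul]
        refine Finset.sum_congr rfl fun q _ => ?_
        rw [w2_swap, hY, alt_swap01 (n := 6) ω (Pi.single p 1) v a]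
        ring
      simp only [mul_sub, Finset.sum_sub_distrib]
      rw [e3, e4, Finset.mul_sum]
      have e5 : ∀ p, ∑ q, w2 Y p q * (f v * vol2 ω p q a) =
          f v * ∑ q, w2 Y p q * vol2 ω p q a := by
        intro p
        rw [Finset.mul_sum]
        refine Finset.sum_congr rfl fun q _ => ?_
        ring
      rw [Finset.sum_congr rfl fun p _ => e5 p]
      ring
    rw [e2] at h1
    have h2 := half_two (A := A)
    linear_combination (-1 : A) * h1 - (∑ q, F q * ω (Fin.cons v (Fin.cons (Pi.single q 1) a))) * h2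
  change F q = 0
  obtain ⟨r, hrq, -⟩ := exists_third q q
  obtain ⟨h1, h2, -⟩ := cpl6_chk r q hrq
  have h3 := key (bt (cpl6 r q)) (Pi.single r 1)
  rw [Finset.sum_eq_single q] at h3
  · have h4 := vol2_bt_sq hS hrq (fun x y h => h1 x y h) h2
    rw [vol2_apply] at h4
    have h5 : F q * (ω (Fin.cons (Pi.single r 1) (Fin.cons (Pi.single q 1) (bt (cpl6 r q)))) *
        ω (Fin.cons (Pi.single r 1) (Fin.cons (Pi.single q 1) (bt (cpl6 r q))))) = 0 := by
      rw [← mul_assoc, h3, zero_mul]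
    rwa [h4, mul_one] at h5
  · intro b _ hb
    have h6 : vol2 ω r b (bt (cpl6 r q)) = 0 := by
      apply vol2_bt_zero
      by_cases hrb : r = b
      · exact Or.inl hrb
      · right
        right
        exact range_tail hrq (fun x y h => h1 x y h) h2 b (Ne.symm hrb) hb
    rw [vol2_apply] at h6
    rw [h6, mul_zero]
  · intro h
    exact absurd (Finset.mem_univ _) h

/-- **Hodge duality** for `6`-forms on `A ^ 8` -/
theorem exists_zeta (f : Vec A →ₗ[A] A) (ν : Vec A [⋀^Fin 6]→ₗ[A] A) (h : wedge f 6 ν = 0) :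
    ∃ ζ : Fin 8 → Fin 8 → A, (∀ i, ζ i i = 0) ∧ (∀ i j, ζ i j = - ζ j i) ∧
      (∀ j, ∑ i, f (Pi.single i 1) * ζ i j = 0) ∧
      ∀ p : E8 A, (∀ i j, w2 p i j = ζ i j) → nu6 (dF A) p = ν :=
  ⟨zt (dF A) ν, zt_self _ ν, zt_swap _ ν,
    zt_closed sqF_dF cram_dF f ν (fun a v => cyc_of_wedge (n := 5) f ν h a v),
    fun _ hp => nu6_of_zt sqF_dF ν _ hp⟩

end Pool.Agent.Licci
end

end
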