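import Pool.Agent.Work.MP_a98e4e_ag.Fu.Acyclic5
import Pool.Agent.Work.MP_a98e4e_ag.Fu.MFree
import Pool.Agent.Work.MP_a98e4e_ag.Fu.Bridge
import Pool.Agent.Work.MP_a98e4e_ag.Fu.Final
import Pool.Agent.Work.MP_a98e4e_ag.Fu.Exch
import Pool.Agent.Work.MP_a98e4e_ag.Fu.CF.Defs

section

/-!
# Grade `c` bridge, part L: every comparison from the Koszul complex computes the link
-/

set_option autoImplicit false

namespace Pool.Agent.Licci.D

open RingTheory.Sequence

universe u

section chain

variable {R : Type u} [CommRing R] {F N : ℕ → Type u} [∀ i, AddCommGroup (F i)]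
  [∀ i, Module R (F i)] [∀ i, AddCommGroup (N i)] [∀ i, Module R (N i)]

/-- lifting of a chain map -/
theorem exists_chain [∀ i, Module.Projective R (F i)] (D : ∀ i, F (i + 1) →ₗ[R] F i)
    (u : ∀ i, N (i + 1) →ₗ[R] N i) (hD : ∀ i x, D i (D (i + 1) x) = 0) (k : ℕ)
    (hu : ∀ i, i < k → Function.Exact (u (i + 1)) (u i)) (ψ0 : F 0 →ₗ[R] N 0)
    (h0 : ∀ x, ∃ y, u 0 y = ψ0 (D 0 x)) :
    ∃ ψ : ∀ i, F i →ₗ[R] N i, ψ 0 = ψ0 ∧ ∀ i, i ≤ k → ∀ x, u i (ψ (i + 1) x) = ψ i (D i x) := by
  have key : ∀ n, n ≤ k + 1 → ∃ ψ : ∀ i, F i →ₗ[R] N i, ψ 0 = ψ0 ∧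
      ∀ i, i < n → ∀ x, u i (ψ (i + 1) x) = ψ i (D i x) := by
    intro n
    induction n with
    | zero =>
      intro _
      refine ⟨fun i => match i with
        | 0 => ψ0
        | _ + 1 => 0, rfl, fun i hi => absurd hi (by omega)⟩
    | succ n ih =>
      intro hn
      obtain ⟨ψ, hψ0, hψ⟩ := ih (by omega)
      have h1 : ∃ g : F (n + 1) →ₗ[R] N (n + 1), ∀ x, u n (g x) = ψ n (D n x) := by
        cases n with
        | zero =>
          have hv : ∀ x, (ψ 0 ∘ₗ D 0) x ∈ LinearMap.range (u 0) := by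
            intro x
            obtain ⟨y, hy⟩ := h0 x
            exact ⟨y, by rw [hy, ← hψ0]; rfl⟩
          obtain ⟨g, hg⟩ := Module.projective_lifting_property (u 0).rangeRestrict
            ((ψ 0 ∘ₗ D 0).codRestrict _ hv) (LinearMap.surjective_rangeRestrict _)
          refine ⟨g, fun x => ?_⟩
          exact congrArg Subtype.val (LinearMap.congr_fun hg x)
        | succ n =>
          exact LicciCodimFour.exists_lift (hu n (by omega)) (ψ (n + 1) ∘ₗ D (n + 1)) (fun x => by
            rw [LinearMap.comp_apply, hψ n (by omega), hD, map_zero])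
      obtain ⟨g, hg⟩ := h1
      refine ⟨Function.update ψ (n + 1) g, ?_, fun i hi x => ?_⟩
      · rw [Function.update_of_ne (by omega)]
        exact hψ0
      · rcases Nat.lt_succ_iff_lt_or_eq.1 hi with h | h
        · rw [Function.update_of_ne (by omega), Function.update_of_ne (by omega)]
          exact hψ i h x
        · subst h
          rw [Function.update_self, Function.update_of_ne (by omega)]
          exact hg x
  obtain ⟨ψ, hψ0, hψ⟩ := key (k + 1) le_rfl
  exact ⟨ψ, hψ0, fun i hi => hψ i (by omega)⟩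

end chain

section cls

variable {R : Type u} [CommRing R] {M : Type u} [AddCommGroup M] [Module R M]
  [Module.Free R M] [Module.Finite R M]
  {G : ℕ → Type u} [∀ i, AddCommGroup (G i)] [∀ i, Module R (G i)]
  {f : M →ₗ[R] R} {u : ∀ i, G (i + 1) →ₗ[R] G i} {k : ℕ}

/-- The class of a closed form, in terms of given comparison families. -/
theorem class_of_comp [∀ i, Module.Flat R (G i)]
    (hf : HasReg f (k + 1)) (hu : ∀ i, i < k → Function.Exact (u (i + 1)) (u i))
    (hinj : Function.Injective (u k))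
    (α : G (k + 1) ≃ₗ[R] R) (β : G k ≃ₗ[R] Module.Dual R M)
    (hβ : ∀ g v, β (u k g) v = α g * f v) {ι : Type*} [Fintype ι] (b : Module.Basis ι R (G 0))
    (x : ι → ∀ i, M [⋀^Fin i]→ₗ[R] G i) (hx : ∀ a, IsComp f u k (x a))
    (hx0 : ∀ a, x a 0 = AlternatingMap.constOfIsEmpty R M (Fin 0) (b a))
    (ω : M [⋀^Fin (k + 1)]→ₗ[R] R) (hω : wedge f (k + 1) ω = 0) :
    ∃ (c : ι → R) (η : M [⋀^Fin k]→ₗ[R] R),
        ω = ∑ a, c a • α.toLinearMap.compAlternatingMap (x a (k + 1)) + wedge f k η := by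
  have h1 : wedge f (k + 1) (α.symm.toLinearMap.compAlternatingMap ω) = 0 := by
    rw [wedge_compRight, hω]
    ext v
    simp
  obtain ⟨z, hz, hz1⟩ := exists_comp_of_closed hu hf _ (exists_up α β hβ _ h1)
  have h2 := hz.sub (IsComp.sum Finset.univ (fun a => b.repr (z 0 ![]) a) hx)
  obtain ⟨τ, hτ⟩ := h2.cob hu hinj (by
    ext v
    have hv : v = ![] := Subsingleton.elim _ _
    subst hv
    simp only [hx0]
    rw [AlternatingMap.sub_apply, alt_sum_apply, AlternatingMap.zero_apply, sub_eq_zero]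
    simp only [AlternatingMap.smul_apply, AlternatingMap.constOfIsEmpty_apply]
    exact (b.sum_repr _).symm)
  refine ⟨fun a => b.repr (z 0 ![]) a, α.toLinearMap.compAlternatingMap τ, ?_⟩
  have h3 : ω = α.toLinearMap.compAlternatingMap (z (k + 1)) := by
    rw [hz1]
    ext v
    simp
  rw [wedge_compRight, ← hτ, h3]
  ext v
  simp [alt_sum_apply, map_sum]

end cls

section forms

variable {R : Type u} [CommRing R] {M : Type u} [AddCommGroup M] [Module R M]
  [Module.Free R M] [Module.Finite R M]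

/-- the wedge map with free indices -/
def nn (f : M →ₗ[R] R) (m n : ℕ) (h : n = m + 1) :
    (M [⋀^Fin m]→ₗ[R] R) →ₗ[R] (M [⋀^Fin n]→ₗ[R] R) :=
  (show (M [⋀^Fin (m + 1)]→ₗ[R] R) →ₗ[R] (M [⋀^Fin n]→ₗ[R] R) by
    subst h; exact LinearMap.id) ∘ₗ wedge f m

/-- the reversed Koszul cochain complex -/
def uN (f : M →ₗ[R] R) (c : ℕ) (j : ℕ) :
    (M [⋀^Fin (c - (j + 1))]→ₗ[R] R) →ₗ[R] (M [⋀^Fin (c - j)]→ₗ[R] R) :=
  if h : c - j = c - (j + 1) + 1 then nn f _ _ h else 0

omit [Module.Free R M] [Module.Finite R M] in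
theorem uN_eq (f : M →ₗ[R] R) (c j : ℕ) (h : c - j = c - (j + 1) + 1) :
    uN f c j = nn f _ _ h := dif_pos h

theorem nn_exact {f : M →ₗ[R] R} {c : ℕ} (hf : HasReg f c) (m n p : ℕ) (h1 : n = m + 1)
    (h2 : p = n + 1) (hc : m + 1 < c) : Function.Exact (nn f m n h1) (nn f n p h2) := by
  subst h1
  subst h2
  exact hf.exact m hc

theorem nn_inj {f : M →ₗ[R] R} {c : ℕ} (hf : HasReg f c) (hc : 0 < c) (m n : ℕ) (hm : m = 0)
    (h1 : n = m + 1) : Function.Injective (nn f m n h1) := by
  subst hm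
  subst h1
  rw [injective_iff_map_eq_zero]
  intro ω hω
  exact koszul_zero hf hc ω hω

omit [Module.Free R M] [Module.Finite R M] in
theorem nn_kill (f : M →ₗ[R] R) (k m n : ℕ) (hn : n = k + 1) (h1 : n = m + 1)
    (hM : ∀ ω : M [⋀^Fin (k + 1 + 1)]→ₗ[R] R, ω = 0) (v : M) (x : M [⋀^Fin n]→ₗ[R] R) :
    ∃ y, nn f m n h1 y = f v • x := by
  subst hn
  obtain rfl : k = m := by omega
  refine ⟨contr v k x, ?_⟩
  have h := contr_wedge f v k x
  rw [hM (wedge f (k + 1) x), map_zero] at h
  exact (sub_eq_zero.1 h.symm).symm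

omit [Module.Free R M] [Module.Finite R M] in
theorem nn_equiv (f : M →ₗ[R] R) (m n : ℕ) (hm : m = 0) (h1 : n = m + 1) :
    ∃ (α : (M [⋀^Fin m]→ₗ[R] R) ≃ₗ[R] R)
      (β : (M [⋀^Fin n]→ₗ[R] R) ≃ₗ[R] Module.Dual R M),
      ∀ g v, β (nn f m n h1 g) v = α g * f v := by
  subst hm
  subst h1
  refine ⟨(AlternatingMap.constLinearEquivOfIsEmpty).symm,
    { toFun := fun ω => (AlternatingMap.ofSubsingleton R M R (0 : Fin 1)).symm ω
      map_add' := fun ω η => by ext v; rfl
      map_smul' := fun c ω => by ext v; rfl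
      invFun := fun l => AlternatingMap.ofSubsingleton R M R (0 : Fin 1) l
      left_inv := fun ω => by simp
      right_inv := fun l => by simp }, ?_⟩
  intro g v
  show wedge f 0 g (fun _ => v) = g 0 * f v
  rw [wedge_apply]
  simp only [Fin.sum_univ_succ, Finset.univ_eq_empty, Finset.sum_empty]
  have h2 : (Fin.removeNth 0 (fun _ => v) : Fin 0 → M) = 0 := Subsingleton.elim _ _
  rw [h2]
  simp [mul_comm]

end forms

section top

variable {R : Type u} [CommRing R]

/-- a form of degree larger than the rank vanishes -/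
theorem alt_top_zero (k : ℕ) (ω : (Fin (k + 1) → R) [⋀^Fin (k + 1 + 1)]→ₗ[R] R) : ω = 0 := by
  refine Module.Basis.ext_alternating (Pi.basisFun R (Fin (k + 1))) fun v hv => ?_
  have h := Fintype.card_le_of_injective v hv
  simp at h

/-- evaluation at the standard basis -/
noncomputable def evTop (k : ℕ) : ((Fin (k + 1) → R) [⋀^Fin (k + 1)]→ₗ[R] R) ≃ₗ[R] R where
  toFun ω := ω fun i => Pi.single i 1
  map_add' ω η := rfl
  map_smul' c ω := rfl
  invFun r := r • (Pi.basisFun R (Fin (k + 1))).det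
  left_inv ω := by
    have h := AlternatingMap.eq_smul_basis_det (Pi.basisFun R (Fin (k + 1))) ω
    have h2 : (⇑(Pi.basisFun R (Fin (k + 1)))) = fun i => Pi.single i 1 := by
      funext i
      simp
    rw [h2] at h
    exact h.symm
  right_inv r := by
    have h2 : (fun i => Pi.single i 1) = (⇑(Pi.basisFun R (Fin (k + 1)))) := by
      funext i
      simp
    simp only [AlternatingMap.smul_apply]
    rw [h2, Module.Basis.det_self, smul_eq_mul, mul_one]

end top

section main

variable {R : Type u} [CommRing R]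

theorem repr_mem {N ι : Type*} [AddCommGroup N] [Module R N] (b : Module.Basis ι R N)
    (A : Ideal R) {z : N} (hz : z ∈ (A • (⊤ : Submodule R N))) (a : ι) : b.repr z a ∈ A := by
  refine Submodule.smul_induction_on hz (fun r hr n _ => ?_) (fun x y hx hy => ?_)
  · rw [map_smul, Finsupp.smul_apply, smul_eq_mul]
    exact A.mul_mem_right _ hr
  · rw [map_add, Finsupp.add_apply]
    exact A.add_mem hx hy

theorem mem_of_repr {N ι : Type*} [Fintype ι] [AddCommGroup N] [Module R N]
    (b : Module.Basis ι R N) (A : Ideal R) {z : N} (hz : ∀ a, b.repr z a ∈ A) :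
    z ∈ (A • (⊤ : Submodule R N)) := by
  rw [← b.sum_repr z]
  exact Submodule.sum_mem _ fun a _ => Submodule.smul_mem_smul (hz a) trivial

variable {F : ℕ → Type u} [∀ i, AddCommGroup (F i)] [∀ i, Module R (F i)]
  [∀ i, Module.Free R (F i)] [∀ i, Module.Finite R (F i)]

/-- There is a comparison from the Koszul complex of `α` to the resolution. -/
theorem exists_comparison_gen (D : ∀ i, F (i + 1) →ₗ[R] F i)
    (hD : ∀ i, Function.Exact (D (i + 1)) (D i)) (e0 : F 0 ≃ₗ[R] R) (k : ℕ)
    {M : Type u} [AddCommGroup M] [Module R M] [Module.Free R M] (α : M →ₗ[R] R)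
    (hα : ∀ v, α v ∈ LinearMap.range (e0.toLinearMap ∘ₗ D 0)) :
    ∃ x : ∀ i, M [⋀^Fin i]→ₗ[R] F i, IsComp α D k x ∧
      x 0 = AlternatingMap.constOfIsEmpty R M (Fin 0) (e0.symm 1) := by
  refine exists_comp (fun i _ => hD i) (fun v x => ?_) _
  obtain ⟨y, hy⟩ := hα v
  refine ⟨e0 x • y, ?_⟩
  apply e0.injective
  have hy' : e0 (D 0 y) = α v := hy
  rw [map_smul, map_smul, map_smul, hy', smul_eq_mul, smul_eq_mul, mul_comm]

/-- **Every** comparison computes the link. -/
theorem link_of_comp (D : ∀ i, F (i + 1) →ₗ[R] F i)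
    (hD : ∀ i, Function.Exact (D (i + 1)) (D i)) (e0 : F 0 ≃ₗ[R] R) (k : ℕ)
    (hz : ∀ x : F (k + 1 + 1), x = 0) (α : (Fin (k + 1) → R) →ₗ[R] R)
    (ha : IsWeaklyRegular R (List.ofFn fun i => α (Pi.single i 1)))
    (hα : ∀ v, α v ∈ LinearMap.range (e0.toLinearMap ∘ₗ D 0))
    (x : ∀ i, (Fin (k + 1) → R) [⋀^Fin i]→ₗ[R] F i) (hx : IsComp α D k x)
    (hx0 : x 0 = AlternatingMap.constOfIsEmpty R (Fin (k + 1) → R) (Fin 0) (e0.symm 1))
    {ι : Type*} [Fintype ι] (b : Module.Basis ι R (F (k + 1))) (I A : Ideal R)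
    (hI : LinearMap.range (e0.toLinearMap ∘ₗ D 0) = I)
    (hA : Ideal.span (Set.range fun i => α (Pi.single i 1)) = A) :
    A.colon (I : Set R) =
        A ⊔ Ideal.span (Set.range fun a => b.repr (x (k + 1) fun i => Pi.single i 1) a) ∧
      A.colon ((A.colon (I : Set R) : Ideal R) : Set R) = I := by
  classical
  set M := Fin (k + 1) → R with hMdef
  set e : Fin (k + 1) → M := fun i => Pi.single i 1 with he
  have hcol : ∀ (J : Ideal R) r, r ∈ A.colon (J : Set R) ↔ ∀ x ∈ J, r * x ∈ A := by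
    intro J r
    rw [Submodule.mem_colon]
    rfl
  have hreg : HasReg α (k + 1) := by
    refine ⟨List.ofFn fun i => α (e i), by simp, ha, ?_⟩
    intro r hr
    obtain ⟨i, rfl⟩ := (List.mem_ofFn' _ _).1 hr
    exact ⟨e i, rfl⟩
  have hinjD : Function.Injective (D k) := by
    rw [injective_iff_map_eq_zero]
    intro z hz'
    obtain ⟨y, rfl⟩ := (hD k z).1 hz'
    rw [hz y, map_zero]
  have hDD : ∀ i x, D i (D (i + 1) x) = 0 := fun i x => (hD i).apply_apply_eq_zero x
  have hcobF : ∀ η : M [⋀^Fin k]→ₗ[R] F (k + 1), wedge α k η e ∈ (A • (⊤ : Submodule R _)) := by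
    intro η
    have h := wedge_apply_mem α k η e
    rwa [hA] at h
  have hcob : ∀ η : M [⋀^Fin k]→ₗ[R] R, wedge α k η e ∈ A := by
    intro η
    have h := wedge_apply_mem α k η e
    rwa [hA, smul_eq_mul, Ideal.mul_top] at h
  -- (i)
  have hi : ∀ y ∈ I, ∀ a, y * b.repr (x (k + 1) e) a ∈ A := by
    intro y hy a
    rw [← hI] at hy
    obtain ⟨v, rfl⟩ := hy
    have hs0 : ∀ z, D 0 ((LinearMap.toSpanSingleton R (F 1) v ∘ₗ e0.toLinearMap) z) =
        (e0.toLinearMap ∘ₗ D 0) v • z := by
      intro z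
      apply e0.injective
      simp [mul_comm]
    set s := nh D ((e0.toLinearMap ∘ₗ D 0) v)
      (LinearMap.toSpanSingleton R (F 1) v ∘ₗ e0.toLinearMap) with hs
    have h1 := nh_spec D _ _ hs0 (k + 1) (fun i _ => hD i) k (by omega)
    have h2 : (e0.toLinearMap ∘ₗ D 0) v • x (k + 1) =
        wedge α k ((s k).compAlternatingMap (x k)) := by
      rw [wedge_compRight, ← hx k le_rfl]
      ext w
      have h3 := h1 (x (k + 1) w)
      rw [hz (nh D _ _ (k + 1) (x (k + 1) w)), map_zero, zero_add] at h3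
      exact h3.symm
    have h4 := repr_mem b A (hcobF ((s k).compAlternatingMap (x k))) a
    rw [← h2, AlternatingMap.smul_apply, map_smul, Finsupp.smul_apply, smul_eq_mul] at h4
    exact h4
  -- (ii)
  have hii : ∀ r, (∀ a, r * b.repr (x (k + 1) e) a ∈ A) → r ∈ I := by
    intro r hr
    have h1 : IsCob α (k + 1) (r • x (k + 1)) := by
      refine (koszul_top α (k + 1) (F (k + 1)) e
        (LicciCodimFour.isWeaklyRegular_of_flat ha _)).2 _ ?_ ?_
      · rw [wedge_smul'', hx.closed hinjD, smul_zero]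
      · rw [show (fun i => α (e i)) = fun i => α (Pi.single i 1) from rfl, hA]
        apply mem_of_repr b
        intro a
        rw [AlternatingMap.smul_apply, map_smul, Finsupp.smul_apply, smul_eq_mul]
        exact hr a
    obtain ⟨η, hη⟩ := h1
    obtain ⟨g, hg⟩ := hx.mem (fun i _ => hD i) hreg hx0 hη
    rw [← hI]
    refine ⟨g, ?_⟩
    show e0 (D 0 g) = r
    rw [hg, map_smul, e0.apply_symm_apply, smul_eq_mul, mul_one]
  -- (iii)
  have hiii : ∀ s, (∀ y ∈ I, s * y ∈ A) →
      s ∈ A ⊔ Ideal.span (Set.range fun a => b.repr (x (k + 1) e) a) := by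
    intro s hs
    -- the Koszul resolution
    obtain ⟨αe, β, hβ⟩ := nn_equiv α (k + 1 - (k + 1)) (k + 1 - k) (by omega) (by omega)
    have hN : ∀ j, Module.Free R (M [⋀^Fin (k + 1 - j)]→ₗ[R] R) := by
      intro j
      obtain ⟨m, ⟨E⟩⟩ := exists_altEquiv (R := R) M (k + 1 - j) R
      exact Module.Free.of_equiv E.symm
    have hexN : ∀ i, i < k → Function.Exact (uN α (k + 1) (i + 1)) (uN α (k + 1) i) := by
      intro i hi
      rw [uN_eq α (k + 1) (i + 1) (by omega), uN_eq α (k + 1) i (by omega)]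
      exact nn_exact hreg _ _ _ _ _ (by omega)
    have hinjN : Function.Injective (uN α (k + 1) k) := by
      rw [uN_eq α (k + 1) k (by omega)]
      exact nn_inj hreg (by omega) _ _ (by omega) _
    have hkill : ∀ v (z : M [⋀^Fin (k + 1 - 0)]→ₗ[R] R), ∃ y, uN α (k + 1) 0 y = α v • z := by
      intro v z
      rw [uN_eq α (k + 1) 0 (by omega)]
      exact nn_kill α k _ _ rfl _ (alt_top_zero k) v z
    have hkillA : ∀ c ∈ A, ∀ z : M [⋀^Fin (k + 1 - 0)]→ₗ[R] R, ∃ y, uN α (k + 1) 0 y = c • z := by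
      intro c hc z
      rw [← hA] at hc
      refine Submodule.span_induction (fun c hc => ?_) ?_ (fun c c' _ _ hc hc' => ?_)
        (fun r c _ hc => ?_) hc
      · obtain ⟨i, rfl⟩ := hc
        exact hkill _ z
      · exact ⟨0, by rw [map_zero, zero_smul]⟩
      · obtain ⟨y, hy⟩ := hc
        obtain ⟨y', hy'⟩ := hc'
        exact ⟨y + y', by rw [map_add, hy, hy', add_smul]⟩
      · obtain ⟨y, hy⟩ := hc
        exact ⟨r • y, by rw [map_smul, hy, smul_smul, smul_eq_mul]⟩
    -- the comparison of the Koszul complex with itself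
    let vol : M [⋀^Fin (k + 1 - 0)]→ₗ[R] R := (evTop (R := R) k).symm 1
    obtain ⟨d, hd, hd0⟩ := exists_comp (G := fun j => M [⋀^Fin (k + 1 - j)]→ₗ[R] R)
      (u := uN α (k + 1)) (f := α) (k := k) hexN hkill vol
    let bN : Module.Basis (Fin 1) R (M [⋀^Fin (k + 1 - 0)]→ₗ[R] R) :=
      Module.Basis.ofEquivFun ((evTop (R := R) k).trans (LinearEquiv.funUnique (Fin 1) R R).symm)
    have hbN : bN 0 = vol := by
      show (Module.Basis.ofEquivFun _) 0 = vol
      rw [Module.Basis.coe_ofEquivFun]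
      show (evTop (R := R) k).symm ((Pi.single 0 1 : Fin 1 → R) default) = vol
      rw [show (default : Fin 1) = 0 from rfl, Pi.single_eq_same]
    obtain ⟨c, η, hc⟩ := class_of_comp (G := fun j => M [⋀^Fin (k + 1 - j)]→ₗ[R] R)
      (u := uN α (k + 1)) hreg hexN hinjN αe β (fun g v => by
        rw [uN_eq α (k + 1) k (by omega)]
        exact hβ g v) bN (fun _ => d) (fun _ => hd) (fun a => by
        rw [Subsingleton.elim a 0, hbN]
        exact hd0) ((evTop (R := R) k).symm 1) (alt_top_zero k _)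
    -- the chain map `F → K` lifting `s`
    obtain ⟨ψ, hψ0, hψ⟩ := exists_chain (N := fun j => M [⋀^Fin (k + 1 - j)]→ₗ[R] R) D
      (uN α (k + 1)) hDD k hexN
      ((LinearMap.toSpanSingleton R (M [⋀^Fin (k + 1 - 0)]→ₗ[R] R) (s • vol)) ∘ₗ e0.toLinearMap)
      (fun z => by
        obtain ⟨y, hy⟩ := hkillA (s * e0 (D 0 z)) (hs _ (by rw [← hI]; exact ⟨z, rfl⟩)) vol
        refine ⟨y, ?_⟩
        rw [hy]
        simp [smul_smul, mul_comm])
    -- both are comparison families with the same start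
    have hψx : IsComp α (uN α (k + 1)) k (G := fun j => M [⋀^Fin (k + 1 - j)]→ₗ[R] R)
        (fun i => (ψ i).compAlternatingMap (x i)) := by
      intro i hi
      rw [wedge_compRight, ← hx i hi]
      ext1 v
      exact hψ i hi _
    have hsd := IsComp.sum (f := α) (u := uN α (k + 1)) (k := k) (Finset.univ : Finset (Fin 1))
      (fun _ => s) (x := fun _ => d) (fun _ => hd)
    obtain ⟨τ, hτ⟩ := (hψx.sub hsd).cob hexN hinjN (by
      ext1 v
      rw [hψ0, hx0, hd0]
      simp)
    -- evaluate at the basis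
    set θ := αe (d (k + 1) e) with hθ
    have h1 : 1 - c 0 * θ ∈ A := by
      have h2 := congrArg (fun g => g e) hc
      rw [AlternatingMap.add_apply, alt_sum_apply, Fin.sum_univ_one,
        AlternatingMap.smul_apply, smul_eq_mul] at h2
      have h3 : (evTop (R := R) k).symm 1 e = 1 := (evTop (R := R) k).apply_symm_apply 1
      have h4 : 1 - c 0 * θ = wedge α k η e := by
        have h5 : (αe.toLinearMap.compAlternatingMap (d (k + 1))) e = θ := rfl
        rw [h5, h3] at h2
        linear_combination h2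
      rw [h4]
      exact hcob η
    have h2 : αe (ψ (k + 1) (x (k + 1) e)) - s * θ ∈ A := by
      have h3 := congrArg (fun g => αe (g e)) hτ
      simp only [AlternatingMap.sub_apply, alt_sum_apply, Fin.sum_univ_one,
        AlternatingMap.smul_apply, map_sub, map_smul, smul_eq_mul,
        LinearMap.compAlternatingMap_apply] at h3
      rw [h3]
      have h4 := hcob (αe.toLinearMap.compAlternatingMap τ)
      rw [wedge_compRight] at h4
      exact h4
    have h3 : αe (ψ (k + 1) (x (k + 1) e)) ∈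
        Ideal.span (Set.range fun a => b.repr (x (k + 1) e) a) := by
      rw [← b.sum_repr (x (k + 1) e)]
      simp only [map_sum, map_smul, smul_eq_mul]
      refine Ideal.sum_mem _ fun a _ => Ideal.mul_mem_right _ _ (Ideal.subset_span ⟨a, ?_⟩)
      simp only [← map_smul, ← map_sum]
      rw [b.sum_repr]
    have h4 : s = (s * (1 - c 0 * θ) - c 0 * (αe (ψ (k + 1) (x (k + 1) e)) - s * θ)) +
        c 0 * αe (ψ (k + 1) (x (k + 1) e)) := by ring
    rw [h4]
    exact Ideal.add_mem _ (Ideal.mem_sup_left (Ideal.sub_mem _ (Ideal.mul_mem_left _ _ h1)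
      (Ideal.mul_mem_left _ _ h2))) (Ideal.mem_sup_right (Ideal.mul_mem_left _ _ h3))
  refine ⟨le_antisymm ?_ (sup_le Ideal.le_colon ?_), le_antisymm ?_ ?_⟩
  · intro s hs
    exact hiii s ((hcol I s).1 hs)
  · rw [Ideal.span_le]
    rintro _ ⟨a, rfl⟩
    rw [SetLike.mem_coe, hcol]
    intro y hy
    rw [mul_comm]
    exact hi y hy a
  · intro r hr
    rw [hcol] at hr
    apply hii
    intro a
    apply hr
    rw [hcol]
    intro y hy
    rw [mul_comm]
    exact hi y hy a
  · intro r hr
    rw [hcol]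
    intro s hs
    rw [hcol] at hs
    rw [mul_comm]
    exact hs r hr

end main

section minimal

open IsLocalRing LicciCodimFour

variable {R : Type u} [CommRing R]

/-- the linear form with coefficients `a` -/
def al {c : ℕ} (a : Fin c → R) : (Fin c → R) →ₗ[R] R := Fintype.linearCombination R a

theorem al_apply {c : ℕ} (a v : Fin c → R) : al a v = ∑ i, v i * a i := by
  simp [al, Fintype.linearCombination_apply]

theorem al_single {c : ℕ} (a : Fin c → R) (i : Fin c) : al a (Pi.single i 1) = a i := by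
  rw [al_apply, Finset.sum_eq_single i]
  · simp
  · intro j _ hj
    simp [Pi.single_eq_of_ne hj]
  · simp

/-- the coordinate of the ring in position `0` of the resolution -/
def e00 (R : Type u) [CommRing R] (b : ℕ → ℕ) : (Fin (bb b 0) → R) ≃ₗ[R] R :=
  LinearEquiv.funUnique (Fin 1) R R

theorem e00_comp [IsLocalRing R] {I : Ideal R} {b : ℕ → ℕ} (F : MinimalFreeResolution I b) :
    LinearMap.range ((e00 R b).toLinearMap ∘ₗ DD F 0) = I := by
  have hf : (e00 R b).toLinearMap ∘ₗ DD F 0 = F.aug := by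
    ext x
    rfl
  exact (congrArg LinearMap.range hf).trans F.range_aug

theorem al_mem {c : ℕ} {I : Ideal R} (a : Fin c → R) (haI : ∀ i, a i ∈ I) (v : Fin c → R) :
    al a v ∈ I := by
  rw [al_apply]
  exact Ideal.sum_mem _ fun i _ => I.mul_mem_left _ (haI i)

/-- (E) There is a comparison `K(a) → F`. -/
theorem exists_comparison [IsLocalRing R] {I : Ideal R} {b : ℕ → ℕ}
    (F : MinimalFreeResolution I b) (k : ℕ) (a : Fin (k + 1) → R) (haI : ∀ i, a i ∈ I) :
    ∃ x : ∀ i, (Fin (k + 1) → R) [⋀^Fin i]→ₗ[R] (Fin (bb b i) → R),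
      IsComp (al a) (DD F) k x ∧
      x 0 = AlternatingMap.constOfIsEmpty R (Fin (k + 1) → R) (Fin 0) (fun _ => (1 : R)) := by
  obtain ⟨x, hx, hx0⟩ := exists_comparison_gen (F := fun i => Fin (bb b i) → R) (DD F)
    (DD_exact F) (e00 R b) k (al a) (fun v => by
      rw [e00_comp]
      exact al_mem a haI v)
  exact ⟨x, hx, hx0⟩

/-- (L) **Every** comparison `K(a) → F` computes the link of `I`. -/
theorem link_of_comparison [IsLocalRing R] {I : Ideal R} {b : ℕ → ℕ}
    (F : MinimalFreeResolution I b) (k : ℕ) (hb : ∀ i, k + 1 < i → b i = 0)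
    (a : Fin (k + 1) → R) (ha : IsWeaklyRegular R (List.ofFn a)) (haI : ∀ i, a i ∈ I)
    (x : ∀ i, (Fin (k + 1) → R) [⋀^Fin i]→ₗ[R] (Fin (bb b i) → R))
    (hx : IsComp (al a) (DD F) k x)
    (hx0 : x 0 = AlternatingMap.constOfIsEmpty R (Fin (k + 1) → R) (Fin 0) (fun _ => (1 : R))) :
    (Ideal.span (Set.range a)).colon (I : Set R) =
        Ideal.span (Set.range a) ⊔
          Ideal.span (Set.range (x (k + 1) fun i => Pi.single i 1 : Fin (b (k + 1)) → R)) ∧
      (Ideal.span (Set.range a)).colon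
        (((Ideal.span (Set.range a)).colon (I : Set R) : Ideal R) : Set R) = I := by
  classical
  have hz : ∀ x : (Fin (bb b (k + 1 + 1)) → R), x = 0 := by
    intro x
    ext i
    have h0 : b (k + 1 + 1) = 0 := hb _ (by omega)
    have hi : (i : ℕ) < b (k + 1 + 1) := i.2
    omega
  have hal : (fun i => al a (Pi.single i 1)) = a := by
    funext i
    exact al_single a i
  have h := link_of_comp (F := fun i => Fin (bb b i) → R) (DD F) (DD_exact F) (e00 R b) k hz
    (al a) (by rw [hal]; exact ha) (fun v => by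
      rw [e00_comp]
      exact al_mem a haI v) x hx hx0
    (Pi.basisFun R (Fin (bb b (k + 1)))) I (Ideal.span (Set.range a)) (e00_comp F) (by rw [hal])
  exact h

end minimal

end Pool.Agent.Licci.D

end

section

/-!
# Reduction of linkage data to dimension `c`
-/

set_option autoImplicit false

namespace Pool.Agent.Licci.D

open IsLocalRing LicciCodimFour RingTheory.Sequence
open scoped Pointwise

universe u

section red

variable {R S : Type u} [CommRing R] [CommRing S] (π : R →+* S)

/-- reduction of vectors as a semilinear map -/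
def bcvL (n : ℕ) : (Fin n → R) →ₛₗ[π] (Fin n → S) where
  toFun := bcv π
  map_add' := map_add _
  map_smul' := bcv_smul π

theorem bcvL_apply {n : ℕ} (v : Fin n → R) : bcvL π n v = bcv π v := rfl

theorem al_red {n : ℕ} (a v : Fin n → R) : al (fun i => π (a i)) (bcv π v) = π (al a v) := by
  simp only [al, Fintype.linearCombination_apply, map_sum, smul_eq_mul, map_mul, bcv_apply]

theorem DD_red [IsLocalRing R] [IsLocalRing S] {I : Ideal R} {J : Ideal S} {b : ℕ → ℕ}
    (F : MinimalFreeResolution I b) (F' : MinimalFreeResolution J b)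
    (h0 : F'.aug = bcf π F.aug) (h1 : ∀ i, F'.d i = bcm π (F.d i)) :
    ∀ (i : ℕ) (v : Fin (bb b (i + 1)) → R), DD F' i (bcv π v) = bcv π (DD F i v)
  | 0, v => by
      funext j
      show F'.aug (bcv π v) = π (F.aug v)
      rw [h0, bcf_apply]
  | i + 1, v => by
      show F'.d i (bcv π v) = bcv π (F.d i v)
      rw [h1, bcm_apply]

theorem wedge_red (hπ : Function.Surjective π) {c i n : ℕ} {f : (Fin c → R) →ₗ[R] R}
    {f' : (Fin c → S) →ₗ[S] S} (hf : ∀ v, f' (bcv π v) = π (f v))
    (x : (Fin c → R) [⋀^Fin i]→ₗ[R] (Fin n → R)) :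
    redAlt π (bcvL π n) hπ (wedge f i x) = wedge f' i (redAlt π (bcvL π n) hπ x) := by
  refine redAlt_ext π hπ fun v => ?_
  rw [redAlt_apply, wedge_apply, wedge_apply, map_sum]
  refine Finset.sum_congr rfl fun j _ => ?_
  have h1 : (j.removeNth fun l => bcv π (v l)) = fun l => bcv π (j.removeNth v l) := rfl
  rw [h1, redAlt_apply, hf, ← LinearMap.map_smulₛₗ, map_zsmul]

theorem comp_red (hπ : Function.Surjective π) {c i n m : ℕ}
    {D : (Fin n → R) →ₗ[R] (Fin m → R)} {D' : (Fin n → S) →ₗ[S] (Fin m → S)}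
    (hD : ∀ v, D' (bcv π v) = bcv π (D v))
    (x : (Fin c → R) [⋀^Fin i]→ₗ[R] (Fin n → R)) :
    D'.compAlternatingMap (redAlt π (bcvL π n) hπ x) =
      redAlt π (bcvL π m) hπ (D.compAlternatingMap x) := by
  refine redAlt_ext π hπ fun v => ?_
  rw [redAlt_apply, LinearMap.compAlternatingMap_apply, redAlt_apply, bcvL_apply, hD]
  rfl

theorem IsComp.red (hπ : Function.Surjective π) [IsLocalRing R] [IsLocalRing S] {I : Ideal R}
    {J : Ideal S} {b : ℕ → ℕ} {F : MinimalFreeResolution I b} {F' : MinimalFreeResolution J b}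
    (h0 : F'.aug = bcf π F.aug) (h1 : ∀ i, F'.d i = bcm π (F.d i)) {k c : ℕ} {a : Fin c → R}
    {x : ∀ i, (Fin c → R) [⋀^Fin i]→ₗ[R] (Fin (bb b i) → R)}
    (hx : IsComp (al a) (DD F) k x) :
    IsComp (al fun i => π (a i)) (DD F') k (fun i => redAlt π (bcvL π (bb b i)) hπ (x i)) := by
  intro i hi
  rw [comp_red π hπ (DD_red π F F' h0 h1 i), hx i hi, wedge_red π hπ (al_red π a)]

end red

/-- A weakly regular sequence and an element which is regular modulo it. -/
theorem regular_mod {R : Type u} [CommRing R] [IsRegularLocalRing R] (fs : List R)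
    (hfs : ∀ f ∈ fs, f ∈ maximalIdeal R) {x : R} (hx : x ∈ maximalIdeal R) (hx0 : x ≠ 0)
    (h : IsWeaklyRegular (R ⧸ Ideal.span {x}) (fs.map (Ideal.Quotient.mk (Ideal.span {x})))) :
    ∀ r, x * r ∈ Ideal.ofList fs → r ∈ Ideal.ofList fs := by
  have := isDomain_of_isRegularLocalRing R
  have h1 : IsWeaklyRegular R (x :: fs) := by
    rw [isWeaklyRegular_cons_iff']
    refine ⟨?_, ?_⟩
    · rw [isSMulRegular_iff_right_eq_zero_of_smul]
      intro y hy
      exact (mul_eq_zero.1 hy).resolve_left hx0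
    · have e : QuotSMulTop x R ≃ₗ[R ⧸ Ideal.span {x}] (R ⧸ Ideal.span {x}) := by
        have e0 : (x • ⊤ : Submodule R R) = Ideal.span {x} := by
          ext y
          rw [Ideal.mem_span_singleton', Submodule.mem_smul_pointwise_iff_exists]
          constructor
          · rintro ⟨a, _, ha⟩
            exact ⟨a, by rw [smul_eq_mul, mul_comm] at ha; exact ha⟩
          · rintro ⟨a, ha⟩
            exact ⟨a, trivial, by rw [smul_eq_mul, mul_comm]; exact ha⟩
        let f := Submodule.quotEquivOfEq _ _ e0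
        exact { f with
          map_smul' := by
            intro c y
            obtain ⟨c, rfl⟩ := Ideal.Quotient.mk_surjective c
            exact f.map_smul c y }
      exact (LinearEquiv.isWeaklyRegular_congr e _).2 h
  have h2 : IsWeaklyRegular R (fs ++ [x]) := by
    refine IsLocalRing.isWeaklyRegular_of_perm_of_subset_maximalIdeal h1
      (List.perm_append_singleton x fs).symm ?_
    intro z hz
    rw [List.mem_cons] at hz
    rcases hz with rfl | hz
    · exact hx
    · exact hfs z hz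
  rw [isWeaklyRegular_append_iff, isWeaklyRegular_singleton_iff] at h2
  have h3 : IsSMulRegular (R ⧸ Ideal.ofList fs) x := by
    have e : (Ideal.ofList fs • ⊤ : Submodule R R) = Ideal.ofList fs := by
      rw [smul_eq_mul, Ideal.mul_top]
    have h4 := h2.2
    rw [e] at h4
    exact h4
  intro r hr
  rw [isSMulRegular_iff_right_eq_zero_of_smul] at h3
  have h5 := h3 (Ideal.Quotient.mk _ r) (by
    rw [← Ideal.Quotient.mk_eq_mk, ← Submodule.Quotient.mk_smul, smul_eq_mul,
      Ideal.Quotient.mk_eq_mk]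
    exact Ideal.Quotient.eq_zero_iff_mem.2 hr)
  exact Ideal.Quotient.eq_zero_iff_mem.1 h5

/-- Reduction modulo one element. -/
theorem dim_step {R : Type u} [CommRing R] [IsRegularLocalRing R] {I : Ideal R} {b : ℕ → ℕ}
    (F : MinimalFreeResolution I b) (k : ℕ) (hb : ∀ i, k + 1 < i → b i = 0)
    (a : Fin (k + 1) → R) (ha : IsWeaklyRegular R (List.ofFn a)) (haI : ∀ i, a i ∈ I)
    (x : ∀ i, (Fin (k + 1) → R) [⋀^Fin i]→ₗ[R] (Fin (bb b i) → R))
    (hx0 : x 0 = AlternatingMap.constOfIsEmpty R _ (Fin 0) (fun _ => 1))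
    (hx : IsComp (al a) (DD F) k x) {n : ℕ} (hdim : ringKrullDim R = (n + 1 + (k + 1) : ℕ)) :
    ∃ (S : Type u) (_ : CommRing S) (_ : IsRegularLocalRing S) (π : R →+* S),
      Function.Surjective π ∧ (∀ r, π r ∈ maximalIdeal S ↔ r ∈ maximalIdeal R) ∧
      ringKrullDim S = (n + (k + 1) : ℕ) ∧ IsWeaklyRegular S (List.ofFn fun i => π (a i)) ∧
      ∃ (F' : MinimalFreeResolution (I.map π) b)
        (x' : ∀ i, (Fin (k + 1) → S) [⋀^Fin i]→ₗ[S] (Fin (bb b i) → S)),
        x' 0 = AlternatingMap.constOfIsEmpty S _ (Fin 0) (fun _ => 1) ∧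
        IsComp (al fun i => π (a i)) (DD F') k x' ∧
        x' (k + 1) (fun i => Pi.single i 1) = bcv π (x (k + 1) (fun i => Pi.single i 1)) := by
  have hdom := isDomain_of_isRegularLocalRing R
  have hIm : I ≤ maximalIdeal R := by
    intro r hr
    rw [← F.range_aug] at hr
    obtain ⟨y, rfl⟩ := hr
    exact F.minimal_aug y
  have hfs : ∀ f ∈ List.ofFn a, f ∈ maximalIdeal R := by
    intro f hf
    obtain ⟨i, rfl⟩ := (List.mem_ofFn' _ _).1 hf
    exact hIm (haI i)
  obtain ⟨t, ht, ht2, htreg⟩ := exists_slice (List.ofFn a) hfs ha (by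
    rw [List.length_ofFn, hdim]
    exact_mod_cast (by omega : k + 1 < n + 1 + (k + 1)))
  have ht0 : t ≠ 0 := by
    rintro rfl
    exact ht2 (Ideal.zero_mem _)
  have hA : Ideal.ofList (List.ofFn a) = Ideal.span (Set.range a) := by
    unfold Ideal.ofList
    congr 1
    ext y
    exact List.mem_ofFn' _ _
  have hmod := regular_mod (List.ofFn a) hfs ht ht0 htreg
  rw [hA] at hmod
  have hlink := link_of_comparison F k hb a ha haI x hx hx0
  have hcol : ∀ (A J : Ideal R) r, r ∈ A.colon (J : Set R) ↔ ∀ y ∈ J, r * y ∈ A := by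
    intro A J r
    rw [Submodule.mem_colon]
    rfl
  have htI : ∀ r, t * r ∈ I → r ∈ I := by
    intro r hr
    rw [← hlink.2, hcol]
    intro y hy
    rw [hcol] at hy
    apply hmod
    have := hy _ hr
    rwa [mul_comm, mul_assoc] at this
  obtain ⟨hS, hd⟩ := isRegularLocalRing_quotient ht ht2
  set π := Ideal.Quotient.mk (Ideal.span {t}) with hπ
  have hsurj : Function.Surjective π := Ideal.Quotient.mk_surjective
  have hker : ∀ r, π r = 0 ↔ ∃ s, r = t * s := by
    intro r
    rw [hπ, Ideal.Quotient.eq_zero_iff_mem, Ideal.mem_span_singleton]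
    exact Iff.rfl
  have hmax : ∀ r, π r ∈ maximalIdeal (R ⧸ Ideal.span {t}) ↔ r ∈ maximalIdeal R := by
    intro r
    rw [← map_mk_maximalIdeal, ← hπ, ← Ideal.mem_comap, Ideal.comap_map_of_surjective _ hsurj,
      ← RingHom.ker_eq_comap_bot, hπ, Ideal.mk_ker,
      sup_eq_left.2 ((Ideal.span_singleton_le_iff_mem _).2 ht)]
  obtain ⟨F', hF'0, hF'1⟩ := exists_resolution_mod π hsurj hker (fun r hr => (hmax r).2 hr) ht0 F htI
  refine ⟨R ⧸ Ideal.span {t}, inferInstance, hS, π, hsurj, hmax, ?_, ?_, F',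
    fun i => redAlt π (bcvL π (bb b i)) hsurj (x i), ?_, hx.red π hsurj hF'0 hF'1, ?_⟩
  · rw [← IsRegularLocalRing.spanFinrank_maximalIdeal (R := R ⧸ Ideal.span {t})]
    have h1 := IsRegularLocalRing.spanFinrank_maximalIdeal (R := R)
    rw [hdim] at h1
    have h2 : (maximalIdeal R).spanFinrank = n + 1 + (k + 1) := by exact_mod_cast h1
    have h3 : (maximalIdeal (R ⧸ Ideal.span {t})).spanFinrank = n + (k + 1) := by omega
    rw [h3]
  · rw [List.map_ofFn] at htreg
    exact htreg
  · refine redAlt_ext π hsurj fun v => ?_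
    rw [redAlt_apply, hx0]
    funext i
    show π 1 = 1
    exact map_one π
  · have h1 : (fun i => (Pi.single i 1 : Fin (k + 1) → R ⧸ Ideal.span {t})) =
        fun i => bcv π (Pi.single i 1 : Fin (k + 1) → R) := by
      funext i
      rw [bcv_single]
    show redAlt π (bcvL π (bb b (k + 1))) hsurj (x (k + 1)) (fun i => Pi.single i 1) = _
    rw [h1, redAlt_apply]
    rfl

/-- Reduction to dimension `c = k + 1`. -/
theorem dim_induction (k : ℕ) {b : ℕ → ℕ} (hb : ∀ i, k + 1 < i → b i = 0) (n : ℕ) :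
    ∀ {R : Type u} [CommRing R] [IsRegularLocalRing R] {I : Ideal R}
    (F : MinimalFreeResolution I b)
    (a : Fin (k + 1) → R) (_ : IsWeaklyRegular R (List.ofFn a)) (_ : ∀ i, a i ∈ I)
    (x : ∀ i, (Fin (k + 1) → R) [⋀^Fin i]→ₗ[R] (Fin (bb b i) → R))
    (_ : x 0 = AlternatingMap.constOfIsEmpty R _ (Fin 0) (fun _ => 1))
    (_ : IsComp (al a) (DD F) k x) (_ : ringKrullDim R = (n + (k + 1) : ℕ)),
    ∃ (S : Type u) (_ : CommRing S) (_ : IsRegularLocalRing S) (π : R →+* S),
      Function.Surjective π ∧ (∀ r, π r ∈ maximalIdeal S ↔ r ∈ maximalIdeal R) ∧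
      ringKrullDim S = (k + 1 : ℕ) ∧ IsWeaklyRegular S (List.ofFn fun i => π (a i)) ∧
      ∃ (J : Ideal S) (_ : J = I.map π) (F' : MinimalFreeResolution J b)
        (x' : ∀ i, (Fin (k + 1) → S) [⋀^Fin i]→ₗ[S] (Fin (bb b i) → S)),
        x' 0 = AlternatingMap.constOfIsEmpty S _ (Fin 0) (fun _ => 1) ∧
        IsComp (al fun i => π (a i)) (DD F') k x' ∧
        x' (k + 1) (fun i => Pi.single i 1) = bcv π (x (k + 1) (fun i => Pi.single i 1)) := by
  induction n with
  | zero =>
    intro R _ _ I F a ha haI x hx0 hx hdim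
    refine ⟨R, inferInstance, inferInstance, RingHom.id R, Function.surjective_id,
      fun r => Iff.rfl, ?_, ha, I, (Ideal.map_id I).symm, F, x, hx0, hx, rfl⟩
    rw [hdim, zero_add]
  | succ n ih =>
    intro R _ _ I F a ha haI x hx0 hx hdim
    obtain ⟨S, _, _, π, h1, h2, h3, h4, F', x', h5, h6, h7⟩ :=
      dim_step F k hb a ha haI x hx0 hx hdim
    obtain ⟨T, i1, i2, ψ, g1, g2, g3, g4, J, g5, F'', x'', g6, g7, g8⟩ := ih F'
      (fun i => π (a i)) h4 (fun i => Ideal.mem_map_of_mem π (haI i)) x' h5 h6 h3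
    refine ⟨T, i1, i2, ψ.comp π, g1.comp h1, fun r => (g2 _).trans (h2 r), g3, g4, J, ?_, F'', x'',
      g6, g7, ?_⟩
    · rw [g5, Ideal.map_map]
    · rw [g8, h7]
      rfl

/-- **Slicing linkage data.** A perfect ideal over a regular local ring, given by a minimal free
resolution of length `k + 1`, and a weakly regular sequence of length `k + 1` in it: after passing
to a regular quotient ring of dimension `k + 1` everything is preserved, in particular the link. -/
theorem exists_slice_link {R : Type u} [CommRing R] [IsRegularLocalRing R] {I : Ideal R}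
    {b : ℕ → ℕ} (F : MinimalFreeResolution I b) (k : ℕ) (hb : ∀ i, k + 1 < i → b i = 0)
    (a : Fin (k + 1) → R) (ha : IsWeaklyRegular R (List.ofFn a)) (haI : ∀ i, a i ∈ I) :
    ∃ (S : Type u) (_ : CommRing S) (_ : IsRegularLocalRing S) (π : R →+* S),
      Function.Surjective π ∧ (∀ r, π r ∈ maximalIdeal S ↔ r ∈ maximalIdeal R) ∧
      ringKrullDim S = (k + 1 : ℕ) ∧ IsWeaklyRegular S (List.ofFn fun i => π (a i)) ∧
      Nonempty (MinimalFreeResolution (I.map π) b) ∧
      (Ideal.span (Set.range fun i => π (a i))).colon ((I.map π : Ideal S) : Set S) =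
        ((Ideal.span (Set.range a)).colon (I : Set R)).map π ∧
      (Ideal.span (Set.range fun i => π (a i))).colon
        (((Ideal.span (Set.range fun i => π (a i))).colon ((I.map π : Ideal S) : Set S) :
          Ideal S) : Set S) = I.map π := by
  have hIm : I ≤ maximalIdeal R := by
    intro r hr
    rw [← F.range_aug] at hr
    obtain ⟨y, rfl⟩ := hr
    exact F.minimal_aug y
  have hfs : ∀ f ∈ List.ofFn a, f ∈ maximalIdeal R := by
    intro f hf
    obtain ⟨i, rfl⟩ := (List.mem_ofFn' _ _).1 hf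
    exact hIm (haI i)
  have hreg : IsRegular R (List.ofFn a) :=
    (IsLocalRing.isRegular_iff_isWeaklyRegular_of_subset_maximalIdeal hfs).2 ha
  obtain ⟨n, hn⟩ : ∃ n : ℕ, ringKrullDim R = (n + (k + 1) : ℕ) := by
    have h1 := ringKrullDim_add_length_eq_ringKrullDim_of_isRegular (List.ofFn a) hreg
    rw [List.length_ofFn] at h1
    have hnt : Nontrivial (R ⧸ Ideal.ofList (List.ofFn a)) := by
      refine Ideal.Quotient.nontrivial_iff.2 (ne_of_lt (lt_of_le_of_lt (b := maximalIdeal R) ?_
        (lt_top_iff_ne_top.2 (Ideal.IsPrime.ne_top inferInstance))))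
      rw [Ideal.ofList, Ideal.span_le]
      exact hfs
    have h2 : (0 : WithBot ℕ∞) ≤ ringKrullDim (R ⧸ Ideal.ofList (List.ofFn a)) :=
      ringKrullDim_nonneg_of_nontrivial
    have h3 := IsRegularLocalRing.spanFinrank_maximalIdeal (R := R)
    have h4 : ((k + 1 : ℕ) : WithBot ℕ∞) ≤ ringKrullDim R := by
      rw [← h1]
      calc ((k + 1 : ℕ) : WithBot ℕ∞) = 0 + ((k + 1 : ℕ) : WithBot ℕ∞) := (zero_add _).symm
        _ ≤ _ := by gcongr
    rw [← h3] at h4
    have h5 : k + 1 ≤ (maximalIdeal R).spanFinrank := by exact_mod_cast h4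
    obtain ⟨n, hn⟩ := Nat.exists_eq_add_of_le h5
    refine ⟨n, ?_⟩
    rw [← h3, hn, add_comm]
  obtain ⟨x, hx, hx0⟩ := exists_comparison F k a haI
  have hlink := link_of_comparison F k hb a ha haI x hx hx0
  obtain ⟨S, i1, i2, π, g1, g2, g3, g4, J, rfl, F', x', g6, g7, g8⟩ :=
    dim_induction k hb n F a ha haI x hx0 hx hn
  have hlink' := link_of_comparison F' k hb (fun i => π (a i)) g4
    (fun i => Ideal.mem_map_of_mem π (haI i)) x' g7 g6
  refine ⟨S, i1, i2, π, g1, g2, g3, g4, ⟨F'⟩, ?_, hlink'.2⟩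
  rw [hlink'.1, hlink.1, Ideal.map_sup, Ideal.map_span, Ideal.map_span, ← Set.range_comp,
    ← Set.range_comp, g8]
  rfl

end Pool.Agent.Licci.D

end

section

/-!
# General position for arbitrary grade: a regular sequence as a part of the generators
-/

set_option autoImplicit false

namespace LicciCodimFour

open IsLocalRing RingTheory.Sequence

universe u

variable {R : Type u} [CommRing R]

/-- The first `c` of `c + e` generators may be chosen to be a regular sequence. -/
theorem exists_split [IsLocalRing R] [IsNoetherianRing R] [Infinite (ResidueField R)] {c e : ℕ}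
    (f : Fin (c + e) → R) (hf : ∀ i, f i ∈ maximalIdeal R)
    (hreg : ∃ rs : List R, rs.length = c ∧ IsRegular R rs ∧
      ∀ r ∈ rs, r ∈ Ideal.span (Set.range f)) :
    ∃ (a : Fin c → R) (v : Fin e → R), IsWeaklyRegular R (List.ofFn a) ∧
      (∀ i, a i ∈ maximalIdeal R) ∧
      Ideal.span (Set.range f) = Ideal.span (Set.range a) ⊔ Ideal.span (Set.range v) := by
  have hI : Ideal.span (Set.range f) ≤ maximalIdeal R := by
    rw [Ideal.span_le]
    rintro _ ⟨i, rfl⟩
    exact hf i
  have hgr : ∃ rs : List R, rs.length = c ∧ (∀ y ∈ rs, y ∈ Ideal.span (Set.range f)) ∧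
      IsRegular R rs := by
    obtain ⟨rs, h1, h2, h3⟩ := hreg
    exact ⟨rs, h1, h3, h2⟩
  have key : ∀ i ≤ c, ∃ F : Fin (c + e) → R,
      Ideal.span (Set.range F) = Ideal.span (Set.range f) ∧
      IsWeaklyRegular R ((List.ofFn F).take i) := by
    intro i
    induction i with
    | zero =>
      intro _
      exact ⟨f, rfl, by simp⟩
    | succ i ih =>
      intro hi
      obtain ⟨F, hF, hFr⟩ := ih (by omega)
      have hi' : i < c + e := by omega
      -- the subspace of vectors with vanishing `i`-th coordinate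
      let V : Submodule (ResidueField R) (Fin (c + e) → ResidueField R) :=
        LinearMap.ker (LinearMap.proj (⟨i, hi'⟩ : Fin (c + e)))
      have hV : V ≠ ⊤ := by
        intro h
        have h1 : (fun _ => 1 : Fin (c + e) → ResidueField R) ∈ V := by rw [h]; trivial
        have h2 : (1 : ResidueField R) = 0 := by simpa [V] using h1
        exact one_ne_zero h2
      obtain ⟨a, ha1, ha2⟩ := Pool.Agent.Licci.gp_row F (by rw [hF]; exact hI)
        (by rw [hF]; exact hgr) ((List.ofFn F).take i) (by simp; omega) (by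
          intro y hy
          have := List.mem_of_mem_take hy
          rw [List.mem_ofFn] at this
          exact Ideal.subset_span this) hFr {V} (by
          intro W hW
          rw [Finset.mem_singleton] at hW
          rw [hW]
          exact hV)
      have hunit : IsUnit (a ⟨i, hi'⟩) := by
        rw [← IsLocalRing.notMem_maximalIdeal, ← IsLocalRing.residue_eq_zero_iff]
        intro h
        apply ha1 V (Finset.mem_singleton_self V)
        simp only [V, LinearMap.mem_ker, LinearMap.proj_apply]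
        exact h
      refine ⟨Function.update F ⟨i, hi'⟩ (∑ j, a j * F j), ?_, ?_⟩
      · rw [span_update F _ a hunit, hF]
      · rw [take_ofFn_update]
        exact ha2
  obtain ⟨F, hF, hFr⟩ := key c le_rfl
  have hspan : Ideal.span (Set.range F) =
      Ideal.span (Set.range fun i : Fin c => F (Fin.castAdd e i)) ⊔
        Ideal.span (Set.range fun j : Fin e => F (Fin.natAdd c j)) := by
    apply le_antisymm
    · rw [Ideal.span_le]
      rintro _ ⟨i, rfl⟩
      refine Fin.addCases (fun j => ?_) (fun j => ?_) i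
      · exact Ideal.mem_sup_left (Ideal.subset_span ⟨j, rfl⟩)
      · exact Ideal.mem_sup_right (Ideal.subset_span ⟨j, rfl⟩)
    · apply sup_le
      · rw [Ideal.span_le]
        rintro _ ⟨i, rfl⟩
        exact Ideal.subset_span ⟨_, rfl⟩
      · rw [Ideal.span_le]
        rintro _ ⟨i, rfl⟩
        exact Ideal.subset_span ⟨_, rfl⟩
  refine ⟨fun i => F (Fin.castAdd e i), fun j => F (Fin.natAdd c j), ?_, ?_, ?_⟩
  · have : List.ofFn (fun i : Fin c => F (Fin.castAdd e i)) = (List.ofFn F).take c := by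
      apply List.ext_getElem
      · simp
      · intro j h1 h2
        simp only [List.getElem_take, List.getElem_ofFn]
        rfl
    rw [this]
    exact hFr
  · intro i
    apply hI
    rw [← hF]
    exact Ideal.subset_span ⟨_, rfl⟩
  · rw [← hF]
    exact hspan

/-- One generator besides the regular sequence. -/
theorem exists_split_one [IsLocalRing R] [IsNoetherianRing R] [Infinite (ResidueField R)] {c : ℕ}
    (f : Fin (c + 1) → R) (hf : ∀ i, f i ∈ maximalIdeal R)
    (hreg : ∃ rs : List R, rs.length = c ∧ IsRegular R rs ∧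
      ∀ r ∈ rs, r ∈ Ideal.span (Set.range f)) :
    ∃ (a : Fin c → R) (x : R), IsWeaklyRegular R (List.ofFn a) ∧
      (∀ i, a i ∈ maximalIdeal R) ∧
      Ideal.span (Set.range f) = Ideal.span (Set.range a) ⊔ Ideal.span {x} := by
  obtain ⟨a, v, h1, h2, h3⟩ := exists_split f hf hreg
  refine ⟨a, v 0, h1, h2, ?_⟩
  rw [h3]
  congr 2
  ext x
  constructor
  · rintro ⟨i, rfl⟩
    rw [Subsingleton.elim i 0]
    rfl
  · rintro rfl
    exact ⟨0, rfl⟩

end LicciCodimFour

end

section

/-!
MP_a98e4e_ag (licci), module DS0 (helper62): reduction of the Dynkin cases of codimension five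
and six to Gorenstein data `MainG R c`.
-/

set_option autoImplicit false

namespace Pool.Agent.Licci.D

open IsLocalRing RingTheory.Sequence LicciCodimFour

universe u

variable {R : Type u} [CommRing R]

/-- Transport of Gorenstein linkage data to a slice. -/
theorem exists_gdat_slice [IsLocalRing R] {S : Type u} [CommRing S] [IsLocalRing S]
    (π : R →+* S) (hs : Function.Surjective π)
    (hm : ∀ r, π r ∈ maximalIdeal S ↔ r ∈ maximalIdeal R) {n c : ℕ}
    (f : (Fin n → R) →ₗ[R] R) (a : Fin c → Fin n → R) (w : R)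
    (hfm : ∀ v, f v ∈ maximalIdeal R)
    (hreg : IsWeaklyRegular S (List.ofFn fun i => π (f (a i))))
    (h1 : (Ideal.span (Set.range fun i => π (f (a i)))).colon
      ((Ideal.map π (LinearMap.range f) : Ideal S) : Set S) ≤
      Ideal.span (Set.range fun i => π (f (a i))) ⊔ Ideal.span {π w})
    (h2 : (Ideal.span (Set.range fun i => π (f (a i)))).colon
      ((Ideal.span (Set.range fun i => π (f (a i))) ⊔ Ideal.span {π w} : Ideal S) : Set S) =
      Ideal.map π (LinearMap.range f)) :
    ∃ f' : (Fin n → S) →ₗ[S] S, (∀ v : Fin n → R, f' (fun i => π (v i)) = π (f v)) ∧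
      GDat S f' (fun i j => π (a i j)) (π w) := by
  let f' : (Fin n → S) →ₗ[S] S :=
    Fintype.linearCombination S (fun j => π (f (Pi.single j 1)))
  have hf' : ∀ v : Fin n → R, f' (fun i => π (v i)) = π (f v) := by
    intro v
    have hv : f v = ∑ i, v i * f (Pi.single i 1) := by
      conv_lhs => rw [pi_eq_sum_univ' v]
      rw [map_sum]
      refine Finset.sum_congr rfl fun i _ => ?_
      rw [map_smul, smul_eq_mul]
    rw [hv, map_sum]
    simp only [f', Fintype.linearCombination_apply, smul_eq_mul, map_mul]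
  have hlift : ∀ v : Fin n → S, ∃ v0 : Fin n → R, v = fun i => π (v0 i) := by
    intro v
    choose v0 hv0 using fun i => hs (v i)
    exact ⟨v0, funext fun i => (hv0 i).symm⟩
  have hrange : LinearMap.range f' = Ideal.map π (LinearMap.range f) := by
    apply le_antisymm
    · rintro _ ⟨v, rfl⟩
      obtain ⟨v0, rfl⟩ := hlift v
      rw [hf']
      exact Ideal.mem_map_of_mem _ ⟨v0, rfl⟩
    · rw [Ideal.map_le_iff_le_comap]
      rintro _ ⟨v, rfl⟩
      rw [Ideal.mem_comap, ← hf']
      exact ⟨_, rfl⟩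
  have hfa : (fun i => f' fun j => π (a i j)) = fun i => π (f (a i)) := by
    funext i
    exact hf' _
  refine ⟨f', hf', ?_, ?_, ?_, ?_⟩
  · intro v
    obtain ⟨v0, rfl⟩ := hlift v
    rw [hf', hm]
    exact hfm v0
  · rw [hfa]
    exact hreg
  · intro y hy
    rw [hfa] at hy ⊢
    apply h1
    rw [mem_colon_iff', ← hrange]
    rintro _ ⟨v, rfl⟩
    exact hy v
  · intro y
    rw [hfa, hrange, ← h2, mem_colon_iff']
    constructor
    · intro hy z hz
      obtain ⟨s, hs, t, ht, rfl⟩ := Submodule.mem_sup.1 hz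
      obtain ⟨r, rfl⟩ := Ideal.mem_span_singleton'.1 ht
      have e : y * (s + r * π w) = y * s + r * (y * π w) := by ring
      rw [e]
      exact Ideal.add_mem _ (Ideal.mul_mem_left _ _ hs) (Ideal.mul_mem_left _ _ hy)
    · intro hy
      exact hy _ (Ideal.mem_sup_right (Ideal.mem_span_singleton_self _))

theorem map_span_range {S : Type u} [CommRing S] (π : R →+* S) {c : ℕ} (a : Fin c → R) :
    (Ideal.span (Set.range a)).map π = Ideal.span (Set.range fun i => π (a i)) := by
  rw [Ideal.map_span, ← Set.range_comp]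
  rfl

theorem ofList_ofFn {c : ℕ} (a : Fin c → R) :
    Ideal.ofList (List.ofFn a) = Ideal.span (Set.range a) := by
  rw [Ideal.ofList]
  congr 1
  ext x
  simp [List.mem_ofFn]

/-- Gorenstein ideals with `c + 2` generators. -/
theorem licci_type_one [IsRegularLocalRing R] {c : ℕ} (hc : 1 ≤ c)
    (main : MainG R c) (I : Ideal R) (h : IsPerfectWith I c 2 1) : IsLicci I := by
  obtain ⟨⟨rs, hlen, hrs, hrsI⟩, b, hb1, hbc, hb, ⟨F⟩⟩ := h
  -- the regular sequence as a function
  let a0 : Fin c → R := fun i => rs.get (i.cast hlen.symm)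
  have ha0 : List.ofFn a0 = rs := by
    apply List.ext_getElem
    · simp [hlen]
    · intro i h1 h2
      simp [a0]
  have ha0I : ∀ i, a0 i ∈ I := fun i => hrsI _ (List.get_mem _ _)
  have hreg0 : IsWeaklyRegular R (List.ofFn a0) := by
    rw [ha0]
    exact hrs.toIsWeaklyRegular
  obtain ⟨u, hu1, hu2⟩ := bridge_c F c hc hb a0 hreg0 ha0I
  -- the augmentation on `Fin (c + 2) → R`
  let E : (Fin (c + 2) → R) ≃ₗ[R] (Fin (b 1) → R) := LinearEquiv.funCongrLeft R R (finCongr hb1)
  let f : (Fin (c + 2) → R) →ₗ[R] R := F.aug ∘ₗ E.toLinearMap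
  have hrange : LinearMap.range f = I := by
    rw [← F.range_aug]
    exact LinearMap.range_comp_of_range_eq_top _ (LinearEquiv.range E)
  have hex : ∀ i, ∃ v, f v = a0 i := fun i => by
    have : a0 i ∈ LinearMap.range f := by rw [hrange]; exact ha0I i
    exact this
  choose a ha using hex
  have hfa : (fun i => f (a i)) = a0 := funext ha
  have hspan : Ideal.span (Set.range u) = Ideal.span {u (Fin.cast hbc.symm 0)} := by
    congr 1
    ext x
    constructor
    · rintro ⟨i, rfl⟩
      have : i = Fin.cast hbc.symm 0 := by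
        apply Fin.ext
        have := i.2
        simp only [Fin.val_cast, Fin.val_zero]
        omega
      rw [this]
      rfl
    · rintro rfl
      exact ⟨_, rfl⟩
  rw [hspan] at hu1
  rw [← hrange]
  have hsl : Sliced f a (u (Fin.cast hbc.symm 0)) := by
    obtain ⟨k, rfl⟩ : ∃ k, c = k + 1 := ⟨c - 1, by omega⟩
    obtain ⟨S, iS1, iS2, π, hs, hm, hdim, hreg', -, hcol, hdd⟩ :=
      exists_slice_link F k hb a0 hreg0 ha0I
    have hA' : (fun i => π (f (a i))) = fun i => π (a0 i) := by
      funext i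
      rw [ha]
    have hmap : ((Ideal.span (Set.range a0)).colon (I : Set R)).map π =
        Ideal.span (Set.range fun i => π (a0 i)) ⊔
          Ideal.span {π (u (Fin.cast hbc.symm 0))} := by
      rw [hu1, Ideal.map_sup, map_span_range, Ideal.map_span, Set.image_singleton]
    obtain ⟨f', hf', hg⟩ := exists_gdat_slice π hs hm f a (u (Fin.cast hbc.symm 0))
      (fun v => F.minimal_aug _) (by rw [hA']; exact hreg')
      (by rw [hA', hrange, hcol, hmap]) (by rw [hA', ← hmap, ← hcol, hdd, hrange])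
    exact ⟨S, iS1, iS2, π, f', hs, hm, by exact_mod_cast hdim, hf', hg⟩
  refine main f a (u (Fin.cast hbc.symm 0)) ⟨fun v => F.minimal_aug _,
    by rw [hfa]; exact hreg0, ?_, ?_⟩ hsl
  · intro y hy
    rw [hfa] at hy ⊢
    rw [← hu1, mem_colon_iff']
    intro x hx
    rw [← hrange] at hx
    obtain ⟨v, rfl⟩ := hx
    exact hy v
  · intro y
    rw [hfa, hrange]
    constructor
    · intro hy
      rw [← hu2, mem_colon_iff']
      intro x hx
      rw [hu1] at hx
      obtain ⟨s, hs, t, ht, rfl⟩ := Submodule.mem_sup.1 hx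
      obtain ⟨r, rfl⟩ := Ideal.mem_span_singleton'.1 ht
      have e : y * (s + r * u (Fin.cast hbc.symm 0)) =
          y * s + r * (y * u (Fin.cast hbc.symm 0)) := by ring
      rw [e]
      exact Ideal.add_mem _ (Ideal.mul_mem_left _ _ hs) (Ideal.mul_mem_left _ _ hy)
    · intro hy
      rw [← hu2, mem_colon_iff'] at hy
      apply hy
      rw [hu1]
      exact Ideal.mem_sup_right (Ideal.mem_span_singleton_self _)

/-- Almost complete intersections of type two. -/
theorem licci_dev_one [IsRegularLocalRing R] [Infinite (ResidueField R)] {c : ℕ}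
    (hc : 1 ≤ c) (main : MainG R c) (I : Ideal R) (h : IsPerfectWith I c 1 2) : IsLicci I := by
  obtain ⟨hreg, b, hb1, hbc, hb, ⟨F⟩⟩ := h
  have hIm : I ≤ maximalIdeal R := by
    intro x hx
    rw [← F.range_aug] at hx
    obtain ⟨y, rfl⟩ := hx
    exact F.minimal_aug y
  obtain ⟨f0, hf0, hf0I⟩ : ∃ f : Fin (c + 1) → R, (∀ i, f i ∈ maximalIdeal R) ∧
      Ideal.span (Set.range f) = I := by
    refine ⟨fun i => F.aug (Pi.single (Fin.cast hb1.symm i) 1), fun i => F.minimal_aug _, ?_⟩
    refine Eq.trans ?_ F.range_aug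
    rw [range_eq_span]
    congr 1
    ext x
    constructor
    · rintro ⟨i, rfl⟩
      exact ⟨Fin.cast hb1.symm i, rfl⟩
    · rintro ⟨i, rfl⟩
      exact ⟨Fin.cast hb1 i, rfl⟩
  obtain ⟨a, x, ha, -, hax⟩ := exists_split_one f0 hf0 (by
    obtain ⟨rs, h1, h2, h3⟩ := hreg
    exact ⟨rs, h1, h2, fun r hr => by rw [hf0I]; exact h3 r hr⟩)
  rw [hf0I] at hax
  set A := Ideal.span (Set.range a) with hA
  have hAI : A ≤ I := by rw [hax]; exact le_sup_left
  have hxI : x ∈ I := by rw [hax]; exact Ideal.mem_sup_right (Ideal.mem_span_singleton_self x)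
  have haI : ∀ i, a i ∈ I := fun i => hAI (Ideal.subset_span ⟨i, rfl⟩)
  obtain ⟨u, hu1, hu2⟩ := bridge_c F c hc hb a ha haI
  rw [← hA] at hu1 hu2
  set J := A.colon (I : Set R) with hJ
  have hrega : IsRegular R (List.ofFn a) := by
    refine IsRegular.of_isWeaklyRegular_of_mem_maximalIdeal R ?_ ha
    intro r hr
    obtain ⟨i, rfl⟩ := (List.mem_ofFn' _ _).1 hr
    exact hIm (haI i)
  have hAJ : A ≤ J := by rw [hu1]; exact le_sup_left
  have hlink : DirectlyLinked I J := by
    refine ⟨List.ofFn a, hrega, ?_, ?_, ?_⟩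
    · rw [ofList_ofFn]
      exact le_inf hAI hAJ
    · rw [ofList_ofFn, ← hA, hu2]
    · rw [ofList_ofFn, ← hA]
  have hJx : ∀ y, y ∈ J ↔ y * x ∈ A := by
    intro y
    rw [hJ, mem_colon_iff']
    constructor
    · intro h
      exact h x hxI
    · intro h z hz
      rw [hax] at hz
      obtain ⟨s, hs, t, ht, rfl⟩ := Submodule.mem_sup.1 hz
      obtain ⟨r, rfl⟩ := Ideal.mem_span_singleton'.1 ht
      have e : y * (s + r * x) = y * s + r * (y * x) := by ring
      rw [e]
      exact Ideal.add_mem _ (Ideal.mul_mem_left _ _ hs) (Ideal.mul_mem_left _ _ h)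
  by_cases htop : J = ⊤
  · -- then `I = A`
    have h1 : I = A := by
      apply le_antisymm _ hAI
      intro y hy
      have h2 : (1 : R) ∈ J := by rw [htop]; trivial
      rw [hJ, mem_colon_iff'] at h2
      simpa using h2 y hy
    exact ⟨I, Relation.ReflTransGen.refl, List.ofFn a, hrega, by rw [ofList_ofFn, ← hA, h1]⟩
  · have hJm : J ≤ maximalIdeal R := le_maximalIdeal htop
    -- generators of `J`
    let G : Fin (c + 2) → R := Fin.append a (fun i : Fin 2 => u (Fin.cast hbc.symm i))
    have hGJ : Ideal.span (Set.range G) = J := by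
      rw [hu1]
      apply le_antisymm
      · rw [Ideal.span_le]
        rintro _ ⟨i, rfl⟩
        refine Fin.addCases (fun j => ?_) (fun j => ?_) i
        · simp only [G, Fin.append_left]
          exact Ideal.mem_sup_left (Ideal.subset_span ⟨j, rfl⟩)
        · simp only [G, Fin.append_right]
          exact Ideal.mem_sup_right (Ideal.subset_span ⟨_, rfl⟩)
      · apply sup_le
        · rw [hA, Ideal.span_le]
          rintro _ ⟨j, rfl⟩
          exact Ideal.subset_span ⟨Fin.castAdd 2 j, by simp [G]⟩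
        · rw [Ideal.span_le]
          rintro _ ⟨j, rfl⟩
          refine Ideal.subset_span ⟨Fin.natAdd c (Fin.cast hbc j), ?_⟩
          simp [G]
    let f : (Fin (c + 2) → R) →ₗ[R] R := Fintype.linearCombination R G
    have hf1 : ∀ i, f (Pi.single i 1) = G i := by
      intro i
      simp [f, Fintype.linearCombination_apply, Pi.single_apply]
    have hrange : LinearMap.range f = J := by
      rw [range_eq_span, ← hGJ]
      congr 1
      ext z
      simp [hf1]
    let a' : Fin c → Fin (c + 2) → R := fun i => Pi.single (Fin.castAdd 2 i) 1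
    have hfa : (fun i => f (a' i)) = a := by
      funext i
      simp only [a', hf1, G, Fin.append_left]
    have hJl : IsLicci J := by
      rw [← hrange]
      have hfm : ∀ v, f v ∈ maximalIdeal R := by
        intro v
        apply hJm
        rw [← hrange]
        exact ⟨v, rfl⟩
      have hsl : Sliced f a' x := by
        obtain ⟨k, rfl⟩ : ∃ k, c = k + 1 := ⟨c - 1, by omega⟩
        obtain ⟨S, iS1, iS2, π, hs, hm, hdim, hreg', -, hcol, hdd⟩ :=
          exists_slice_link F k hb a ha haI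
        have hA' : (fun i => π (f (a' i))) = fun i => π (a i) := by
          funext i
          exact congrArg π (congrFun hfa i)
        have hmap : I.map π = Ideal.span (Set.range fun i => π (a i)) ⊔
            Ideal.span {π x} := by
          rw [hax, hA, Ideal.map_sup, map_span_range, Ideal.map_span, Set.image_singleton]
        obtain ⟨f', hf', hg⟩ := exists_gdat_slice π hs hm f a' x hfm
          (by rw [hA']; exact hreg')
          (by rw [hA', hrange, hJ, hA, ← hcol, hdd, hmap])
          (by rw [hA', ← hmap, hcol, hrange])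
        exact ⟨S, iS1, iS2, π, f', hs, hm, by exact_mod_cast hdim, hf', hg⟩
      refine main f a' x ⟨hfm, by rw [hfa]; exact ha, ?_, ?_⟩ hsl
      · intro y hy
        rw [hfa, ← hA] at hy ⊢
        rw [← hax, ← hu2, mem_colon_iff']
        intro z hz
        have hz' : z ∈ LinearMap.range f := by rw [hrange]; exact hz
        obtain ⟨v, rfl⟩ := hz'
        exact hy v
      · intro y
        rw [hfa, ← hA, hrange]
        exact (hJx y).symm
    exact IsLicci.of_linked hlink hJl

end Pool.Agent.Licci.D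

end

section

/-!
MP_a98e4e_ag (licci), module DS0 (helper62): the Dynkin condition in codimension at least five and
the final theorem in codimension at least five from the core statements `MainG R 5`, `MainG R 6`
and the theorem of Kunz.
-/

set_option autoImplicit false

namespace Pool.Agent.Licci.D

open IsLocalRing RingTheory.Sequence LicciCodimFour

universe u

/-- The Dynkin condition in codimension at least five. -/
theorem dynkin_ge_five {c d t : ℕ} (hc : 5 ≤ c) (hd : 1 ≤ d) (ht : 1 ≤ t)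
    (h : IsDynkinT (c - 1) (d + 1) (t + 1)) :
    (d = 1 ∧ t = 1) ∨ ((c = 5 ∨ c = 6) ∧ ((d = 2 ∧ t = 1) ∨ (d = 1 ∧ t = 2))) := by
  unfold IsDynkinT at h
  obtain ⟨m, rfl⟩ : ∃ m, c = m + 1 := ⟨c - 1, by omega⟩
  have e : m + 1 - 1 = m := rfl
  rw [e] at h
  have hm : 4 ≤ m := by omega
  have hm0 : (0 : ℚ) < m := by
    have : (4 : ℚ) ≤ m := by exact_mod_cast hm
    linarith
  have hd0 : (0 : ℚ) < ((d + 1 : ℕ) : ℚ) := by positivity
  have ht0 : (0 : ℚ) < ((t + 1 : ℕ) : ℚ) := by positivity
  -- clear denominators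
  have key : m * (d + 1) * (t + 1) < (d + 1) * (t + 1) + m * (t + 1) + m * (d + 1) := by
    have h1 : (m : ℚ) * ((d + 1 : ℕ) : ℚ) * ((t + 1 : ℕ) : ℚ) * 1 <
        (m : ℚ) * ((d + 1 : ℕ) : ℚ) * ((t + 1 : ℕ) : ℚ) *
          (1 / (m : ℚ) + 1 / ((d + 1 : ℕ) : ℚ) + 1 / ((t + 1 : ℕ) : ℚ)) :=
      mul_lt_mul_of_pos_left h (by positivity)
    have h2 : (m : ℚ) * ((d + 1 : ℕ) : ℚ) * ((t + 1 : ℕ) : ℚ) *
          (1 / (m : ℚ) + 1 / ((d + 1 : ℕ) : ℚ) + 1 / ((t + 1 : ℕ) : ℚ)) =
        ((d + 1 : ℕ) : ℚ) * ((t + 1 : ℕ) : ℚ) + (m : ℚ) * ((t + 1 : ℕ) : ℚ) +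
          (m : ℚ) * ((d + 1 : ℕ) : ℚ) := by
      field_simp
    rw [h2, mul_one] at h1
    exact_mod_cast h1
  obtain ⟨d, rfl⟩ := Nat.exists_eq_add_of_le hd
  obtain ⟨t, rfl⟩ := Nat.exists_eq_add_of_le ht
  obtain ⟨m, rfl⟩ := Nat.exists_eq_add_of_le hm
  -- one of `d`, `t` is zero
  have hdt : d = 0 ∨ t = 0 := by
    by_contra hcon
    push Not at hcon
    obtain ⟨d, rfl⟩ := Nat.exists_eq_succ_of_ne_zero hcon.1
    obtain ⟨t, rfl⟩ := Nat.exists_eq_succ_of_ne_zero hcon.2
    simp only [Nat.succ_eq_add_one] at key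
    nlinarith [Nat.zero_le (m * d), Nat.zero_le (m * t), Nat.zero_le (d * t),
      Nat.zero_le (m * d * t), Nat.zero_le m, Nat.zero_le d, Nat.zero_le t]
  rcases hdt with rfl | rfl
  · have ht2 : t ≤ 1 := by
      by_contra hcon
      obtain ⟨t, rfl⟩ : ∃ s, t = s + 2 := ⟨t - 2, by omega⟩
      nlinarith [Nat.zero_le (m * t), Nat.zero_le m, Nat.zero_le t]
    interval_cases t
    · left; exact ⟨rfl, rfl⟩
    · right
      exact ⟨by omega, Or.inr ⟨rfl, rfl⟩⟩
  · have hd2 : d ≤ 1 := by
      by_contra hcon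
      obtain ⟨d, rfl⟩ : ∃ s, d = s + 2 := ⟨d - 2, by omega⟩
      nlinarith [Nat.zero_le (m * d), Nat.zero_le m, Nat.zero_le d]
    interval_cases d
    · left; exact ⟨rfl, rfl⟩
    · right
      exact ⟨by omega, Or.inl ⟨rfl, rfl⟩⟩

variable {R : Type u} [CommRing R]

/-- All Dynkin cases in codimension at least five from the core statements. -/
theorem codim_ge_five [IsRegularLocalRing R] [Infinite (ResidueField R)]
    (main5 : MainG R 5) (main6 : MainG R 6)
    (kunz : ∀ (c : ℕ) (I : Ideal R), 5 ≤ c → ¬ IsPerfectWith I c 1 1)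
    (I : Ideal R) (c d t : ℕ) (hc : 5 ≤ c) (hd : 1 ≤ d) (ht : 1 ≤ t)
    (hdyn : IsDynkinT (c - 1) (d + 1) (t + 1)) (hI : IsPerfectOfInvariants I c d t) :
    IsLicci I := by
  have h := hI.isPerfectWith
  rcases dynkin_ge_five hc hd ht hdyn with ⟨rfl, rfl⟩ | ⟨rfl | rfl, ⟨rfl, rfl⟩ | ⟨rfl, rfl⟩⟩
  · exact absurd h (kunz c I hc)
  · exact licci_type_one (by norm_num) main5 I h
  · exact licci_dev_one (by norm_num) main5 I h
  · exact licci_type_one (by norm_num) main6 I h
  · exact licci_dev_one (by norm_num) main6 I h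

end Pool.Agent.Licci.D

end
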